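import Pool.Agent.Lib_MP_4369f4_top.Defs

/-! H27 R2a: degrees. -/

namespace MP4369f4

open Polynomial

theorem Tp.monic {R : Type*} [CommRing R] (B : Finset R) : (Tp B).Monic := by
  unfold Tp
  exact monic_prod_of_monic _ _ fun b _ => monic_X_sub_C b

theorem Tp.natDegree {R : Type*} [CommRing R] [Nontrivial R] (B : Finset R) :
    (Tp B).natDegree = B.card := by
  unfold Tp
  rw [natDegree_prod_of_monic _ _ fun b _ => monic_X_sub_C b]
  simp

/-- T^4 is monic of degree 4 N and the other summand has degree at most 1 + 2 (2 N - 1) = 4 N - 1. -/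
theorem Gam.monic {R : Type*} [CommRing R] [Nontrivial R] (s a : R) {T P : R[X]} (hT : T.Monic)
    (hP : P.natDegree < T.natDegree) :
    (Gam s a T P).Monic ∧ (Gam s a T P).natDegree = 4 * T.natDegree := by
  have h4 : (T ^ 4).Monic := hT.pow 4
  have hd4 : (T ^ 4).natDegree = 4 * T.natDegree := hT.natDegree_pow 4
  have h1 : (C s * P * T - 1).natDegree ≤ P.natDegree + T.natDegree := by
    refine (natDegree_sub_le _ _).trans (max_le ?_ (by simp))
    refine natDegree_mul_le.trans (Nat.add_le_add_right ?_ _)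
    exact natDegree_C_mul_le s P
  have h2 : (C (s ^ 2) * (X - C a) * (C s * P * T - 1) ^ 2).natDegree < 4 * T.natDegree := by
    have h3 : (C (s ^ 2) * (X - C a)).natDegree ≤ 1 :=
      (natDegree_C_mul_le _ _).trans (natDegree_X_sub_C_le a)
    have h5 : ((C s * P * T - 1) ^ 2).natDegree ≤ 2 * (P.natDegree + T.natDegree) :=
      natDegree_pow_le.trans (Nat.mul_le_mul_left 2 h1)
    have h6 := natDegree_mul_le (p := C (s ^ 2) * (X - C a)) (q := (C s * P * T - 1) ^ 2)
    omega
  have hdeg : (C (s ^ 2) * (X - C a) * (C s * P * T - 1) ^ 2).degree < (T ^ 4).degree := by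
    rw [degree_eq_natDegree h4.ne_zero, hd4]
    exact (degree_le_natDegree).trans_lt (by exact_mod_cast h2)
  unfold Gam
  refine ⟨h4.add_of_left hdeg, ?_⟩
  rw [natDegree_add_eq_left_of_degree_lt hdeg, hd4]

/-- The derivative of the product at a root b is the product of the b - b' over b' different from b. -/
theorem Tp.derivative_ne_zero {K : Type*} [Field K] (B : Finset K) {b : K} (hb : b ∈ B) :
    (Tp B).eval b = 0 ∧ (derivative (Tp B)).eval b ≠ 0 := by
  classical
  have h : Tp B = (X - C b) * ∏ c ∈ B.erase b, (X - C c) := by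
    unfold Tp
    rw [Finset.mul_prod_erase B (fun c => X - C c) hb]
  constructor
  · rw [h]; simp
  · rw [h, derivative_mul, derivative_X_sub_C]
    simp only [eval_add, eval_mul, eval_sub, eval_X, eval_C, sub_self, zero_mul, add_zero, eval_one,
      one_mul]
    rw [eval_prod, Finset.prod_ne_zero_iff]
    intro c hc
    rw [eval_sub, eval_X, eval_C]
    exact sub_ne_zero.2 (Finset.ne_of_mem_erase hc).symm

/-- Gam(a) = T(a)^4. -/
theorem Gam.eval_self {R : Type*} [CommRing R] (s a : R) (T P : R[X]) :
    (Gam s a T P).eval a = T.eval a ^ 4 := by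
  unfold Gam
  simp

end MP4369f4
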