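import Pool.Agent.Lib_MP_4369f4_top.Root
import Pool.Agent.Lib_MP_4369f4_top.GamMonic

/-! H27 R2: Gam is f times the conjugate of f over κ[[S]], S^2 = s. -/

namespace MP4369f4

open Polynomial

private theorem split_iota_C {κ : Type} [Field κ] (c : κ) :
    PowerSeries.evalNegHom (A := κ) (PowerSeries.C c) = PowerSeries.C c := by
  ext n
  unfold PowerSeries.evalNegHom
  rw [PowerSeries.coeff_rescale, PowerSeries.coeff_C]
  split_ifs with h
  · rw [h, pow_zero, one_mul]
  · rw [mul_zero]

private theorem split_iota_const {κ : Type} [Field κ] (g : PowerSeries κ) :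
    PowerSeries.constantCoeff (PowerSeries.evalNegHom (A := κ) g) =
      PowerSeries.constantCoeff g := by
  unfold PowerSeries.evalNegHom
  rw [← PowerSeries.coeff_zero_eq_constantCoeff_apply, PowerSeries.coeff_rescale, pow_zero,
    one_mul, PowerSeries.coeff_zero_eq_constantCoeff_apply]

/-- Let iota = `PowerSeries.evalNegHom`, S = PowerSeries.X, G = the polynomial Gam below; G.map iota = G (`Gam.map`,
iota S = - S, hPi). For b in B choose ν_b (hν) and by `exists_root` power series η, η' with constant terms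
ν_b and ω ν_b (also (ω ν)^4 = ν^4), r_b = b + S η, r'_b = b + S η' roots of G; their images under iota are
roots too, iota r_b = b - S iota(η). The 4 card B elements r_b, r'_b, iota r_b, iota r'_b (b in B) are different:
the constant coefficients are b, and for the same b the coefficients of S are ν, ω ν, - ν, - ω ν, different
since ν is not 0 and ω^2 = -1. G is monic of degree 4 card B (`Gam.monic`), the product of the X - r over the
4 card B roots divides G and is monic of the same degree, so it is G
(`Polynomial.prod_multiset_X_sub_C_of_monic_of_roots_card_eq` or `Multiset.prod_X_sub_C_dvd_iff_le_roots` and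
`Polynomial.eq_of_monic_of_dvd_of_natDegree_le`). f = the product over b of (X - r_b) (X - r'_b). -/
theorem exists_split {κ : Type} [Field κ] [CharZero κ] {ω : κ} (hω : ω ^ 2 = -1)
    (B : Finset κ) {a : κ} (ha : a ∉ B)
    (hν : ∀ b ∈ B, ∃ ν : κ, ν ^ 4 * ((derivative (Tp B)).eval b) ^ 4 = -(b - a))
    (P : (PowerSeries κ)[X]) (hP : P.natDegree < B.card)
    (hPi : P.map (PowerSeries.evalNegHom (A := κ)) = P) :
    ∃ f : (PowerSeries κ)[X], f.Monic ∧ f * f.map (PowerSeries.evalNegHom (A := κ)) =
      Gam (PowerSeries.X ^ 2) (PowerSeries.C a) ((Tp B).map PowerSeries.C) P := by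
  classical
  set ι : PowerSeries κ →+* PowerSeries κ := PowerSeries.evalNegHom (A := κ) with hι
  set G : (PowerSeries κ)[X] :=
    Gam (PowerSeries.X ^ 2) (PowerSeries.C a) ((Tp B).map PowerSeries.C) P with hG
  have hιX : ι PowerSeries.X = -PowerSeries.X := PowerSeries.evalNegHom_X
  have hιC : ∀ c, ι (PowerSeries.C c) = PowerSeries.C c := split_iota_C
  have hιι : ∀ c, PowerSeries.constantCoeff (ι c) = PowerSeries.constantCoeff c := split_iota_const
  -- invariance of G
  have hGι : G.map ι = G := by
    rw [hG, Gam.map, hPi, map_pow, hιX, hιC, neg_sq, Polynomial.map_map]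
    congr 2
    ext c
    simp [hιC]
  have hroot : ∀ r, G.eval r = 0 → G.eval (ι r) = 0 := by
    intro r hr
    have h1 : (G.map ι).eval (ι r) = ι (G.eval r) := Polynomial.eval_map_apply ι r
    rw [hGι, hr, map_zero] at h1
    exact h1
  -- degrees
  have hTm : ((Tp B).map (PowerSeries.C (R := κ))).Monic := (Tp.monic B).map _
  have hTd : ((Tp B).map (PowerSeries.C (R := κ))).natDegree = B.card := by
    rw [(Tp.monic B).natDegree_map, Tp.natDegree]
  obtain ⟨hGm, hGd⟩ := Gam.monic (PowerSeries.X ^ 2) (PowerSeries.C a) hTm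
    (P := P) (by rw [hTd]; exact hP)
  rw [hTd] at hGd
  -- roots
  have hω4 : ω ^ 4 = 1 := by
    have : ω ^ 4 = (ω ^ 2) ^ 2 := by ring
    rw [this, hω]
    ring
  have key : ∀ b : {b // b ∈ B}, ∃ ν : κ, ν ≠ 0 ∧ ∃ η η' : PowerSeries κ,
      PowerSeries.constantCoeff η = ν ∧ PowerSeries.constantCoeff η' = ω * ν ∧
      G.eval (PowerSeries.C b.1 + PowerSeries.X * η) = 0 ∧
      G.eval (PowerSeries.C b.1 + PowerSeries.X * η') = 0 := by
    intro b
    have hba : b.1 ≠ a := fun h => ha (h ▸ b.2)
    obtain ⟨ν, hν1⟩ := hν b.1 b.2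
    have hT := (Tp.derivative_ne_zero B b.2).1
    obtain ⟨η, h1, h2⟩ := exists_root hba hT hν1 P
    obtain ⟨η', h3, h4⟩ := exists_root (ν := ω * ν) hba hT
      (by rw [mul_pow, hω4, one_mul]; exact hν1) P
    refine ⟨ν, ?_, η, η', h1, h3, h2, h4⟩
    rintro rfl
    apply sub_ne_zero.2 hba
    have h5 : -(b.1 - a) = 0 := by rw [← hν1]; ring
    exact neg_eq_zero.1 h5
  choose ν hν0 η η' hη hη' hr hr' using key
  let θ : {b // b ∈ B} → Fin 4 → PowerSeries κ := fun b => ![η b, η' b, -ι (η b), -ι (η' b)]
  let ρ : {b // b ∈ B} → Fin 4 → PowerSeries κ := fun b i =>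
    PowerSeries.C b.1 + PowerSeries.X * θ b i
  have hρι : ∀ b, ι (ρ b 0) = ρ b 2 ∧ ι (ρ b 1) = ρ b 3 := by
    intro b
    constructor
    · simp only [ρ, θ, map_add, map_mul, hιC, hιX]
      simp
    · simp only [ρ, θ, map_add, map_mul, hιC, hιX]
      simp
  have hρr : ∀ b i, G.eval (ρ b i) = 0 := by
    intro b i
    have h0 : G.eval (ρ b 0) = 0 := hr b
    have h1 : G.eval (ρ b 1) = 0 := hr' b
    fin_cases i
    · exact h0
    · exact h1
    · have := hroot _ h0
      rw [(hρι b).1] at this
      exact this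
    · have := hroot _ h1
      rw [(hρι b).2] at this
      exact this
  have hc0 : ∀ b i, PowerSeries.constantCoeff (ρ b i) = b.1 := by
    intro b i
    simp [ρ]
  have hc1 : ∀ b i, PowerSeries.coeff 1 (ρ b i) = PowerSeries.constantCoeff (θ b i) := by
    intro b i
    simp only [ρ, map_add]
    rw [← PowerSeries.coeff_zero_eq_constantCoeff_apply (θ b i)]
    have h1 : PowerSeries.coeff 1 (PowerSeries.X * θ b i) = PowerSeries.coeff 0 (θ b i) :=
      PowerSeries.coeff_succ_X_mul 0 _
    rw [h1]
    have h2 : PowerSeries.coeff 1 (PowerSeries.C b.1) = 0 := by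
      rw [PowerSeries.coeff_C]
      simp
    rw [h2, zero_add]
  have hθ : ∀ b i, PowerSeries.constantCoeff (θ b i) =
      (![1, ω, -1, -ω] : Fin 4 → κ) i * ν b := by
    intro b i
    fin_cases i
    · simpa [θ] using hη b
    · simpa [θ] using hη' b
    · simpa [θ, hιι] using hη b
    · simpa [θ, hιι] using hη' b
  have hω0 : ω ≠ 0 := by
    rintro rfl
    norm_num at hω
  have hω1 : ω ≠ 1 := by
    rintro rfl
    have : (2 : κ) = 0 := by linear_combination hω
    exact two_ne_zero this
  have hωm : ω ≠ -1 := by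
    rintro rfl
    have : (2 : κ) = 0 := by linear_combination hω
    exact two_ne_zero this
  have hinj4 : Function.Injective (![1, ω, -1, -ω] : Fin 4 → κ) := by
    have h2 : (2 : κ) ≠ 0 := two_ne_zero
    have e1 : (1 : κ) ≠ -1 := by
      intro h
      apply h2
      linear_combination h
    have e2 : ω ≠ -ω := by
      intro h
      apply mul_ne_zero h2 hω0
      linear_combination h
    have e3 : (1 : κ) ≠ -ω := by
      intro h
      apply hωm
      linear_combination h
    intro i j hij
    fin_cases i <;> fin_cases j <;> simp at hij ⊢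
    all_goals first
      | exact absurd hij hω1
      | exact absurd hij.symm hω1
      | exact absurd hij hωm
      | exact absurd hij.symm hωm
      | exact absurd hij e1
      | exact absurd hij.symm e1
      | exact absurd hij e2
      | exact absurd hij.symm e2
      | exact absurd hij e3
      | exact absurd hij.symm e3
  have hρinj : Function.Injective (fun p : {b // b ∈ B} × Fin 4 => ρ p.1 p.2) := by
    rintro ⟨b, i⟩ ⟨c, j⟩ h
    simp only at h
    have hbc : b = c := by
      apply Subtype.ext
      rw [← hc0 b i, h, hc0]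
    subst hbc
    have h1 : PowerSeries.coeff 1 (ρ b i) = PowerSeries.coeff 1 (ρ b j) := by rw [h]
    rw [hc1, hc1, hθ, hθ] at h1
    have h2 := mul_right_cancel₀ (hν0 b) h1
    rw [hinj4 h2]
  -- the polynomial
  let Q : (PowerSeries κ)[X] := ∏ b : {b // b ∈ B}, ∏ i : Fin 4, (X - C (ρ b i))
  have hQ : Q = ((Finset.univ.val.map fun p : {b // b ∈ B} × Fin 4 => ρ p.1 p.2).map
      fun r => X - C r).prod := by
    rw [Multiset.map_map]
    change _ = ∏ p : {b // b ∈ B} × Fin 4, (X - C (ρ p.1 p.2))
    rw [Fintype.prod_prod_type]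
  have hQm : Q.Monic := by
    refine monic_prod_of_monic _ _ fun b _ => monic_prod_of_monic _ _ fun i _ => monic_X_sub_C _
  have hQd : Q.natDegree = 4 * B.card := by
    rw [natDegree_prod_of_monic _ _ fun b _ => monic_prod_of_monic _ _ fun i _ => monic_X_sub_C _]
    have : ∀ b : {b // b ∈ B}, (∏ i : Fin 4, (X - C (ρ b i))).natDegree = 4 := by
      intro b
      rw [natDegree_prod_of_monic _ _ fun i _ => monic_X_sub_C _]
      simp
    simp only [this]
    simp [mul_comm]
  have hdvd : Q ∣ G := by
    rw [hQ, Multiset.prod_X_sub_C_dvd_iff_le_roots hGm.ne_zero, Multiset.le_iff_subset]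
    · intro r hr1
      rw [Multiset.mem_map] at hr1
      obtain ⟨p, -, rfl⟩ := hr1
      rw [mem_roots hGm.ne_zero]
      exact hρr p.1 p.2
    · exact Finset.univ.nodup.map hρinj
  have hQG : Q = G := (eq_of_monic_of_dvd_of_natDegree_le hQm hGm hdvd (by omega)).symm
  refine ⟨∏ b : {b // b ∈ B}, ((X - C (ρ b 0)) * (X - C (ρ b 1))), ?_, ?_⟩
  · exact monic_prod_of_monic _ _ fun b _ => (monic_X_sub_C _).mul (monic_X_sub_C _)
  · rw [← hQG, Polynomial.map_prod, ← Finset.prod_mul_distrib]
    refine Finset.prod_congr rfl fun b _ => ?_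
    rw [Fin.prod_univ_four, Polynomial.map_mul, Polynomial.map_sub, Polynomial.map_sub,
      Polynomial.map_X, Polynomial.map_C, Polynomial.map_C, (hρι b).1, (hρι b).2]
    ring

end MP4369f4
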