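import Pool.Agent.Lib_MP_4369f4_top.Integral
import Pool.Agent.Lib_MP_4369f4_top.Split

/-! H27 R5: Gam is a norm of sqrt s over κ((s)), with algebraic coefficients. -/

namespace MP4369f4

open Polynomial

private theorem aB_integral {κ : Type} [Field κ] {x : PowerSeries κ} (hx : IsAlgebraic κ[X] x) :
    (emb κ).IsIntegralElem (HahnSeries.ofPowerSeries ℤ κ x) := by
  obtain ⟨p, hp0, hp⟩ := hx
  have hq0 : p.map (algebraMap κ[X] (RatFunc κ)) ≠ 0 :=
    (Polynomial.map_ne_zero_iff (IsFractionRing.injective κ[X] (RatFunc κ))).2 hp0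
  have hcomp : (emb κ).comp (algebraMap κ[X] (RatFunc κ)) =
      (HahnSeries.ofPowerSeries ℤ κ).comp (algebraMap κ[X] (PowerSeries κ)) :=
    RingHom.ext fun r => emb_algebraMap κ r
  have hev : eval₂ (emb κ) (HahnSeries.ofPowerSeries ℤ κ x)
      (p.map (algebraMap κ[X] (RatFunc κ))) = 0 := by
    rw [Polynomial.eval₂_map, hcomp, ← Polynomial.hom_eval₂, ← Polynomial.aeval_def, hp, map_zero]
  refine ⟨p.map (algebraMap κ[X] (RatFunc κ)) *
    C (p.map (algebraMap κ[X] (RatFunc κ))).leadingCoeff⁻¹,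
    Polynomial.monic_mul_leadingCoeff_inv hq0, ?_⟩
  rw [Polynomial.eval₂_mul, hev, zero_mul]

/-- In κ[X][X] (inner variable s = X): G = Gam X (C a) ((Tp B).map C) P. Over PowerSeries κ:
P1 = (P.map (algebraMap κ[X] (PowerSeries κ))).map (psi κ) is even (`evalNeg_psi`), of degree < card B, so
`exists_split` gives f; `exists_even_odd_poly` f = ψA + S ψB; `mul_conj`, `psi_injective` (Polynomial.map_injective), `psi_X`,
`psi_C`, `Gam.map`: A^2 - s B^2 = Gam s (C a) T (P.map ..). `isAlgebraic_coeffs` (f divides), with `Gam.monic` for G. Finally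
map to LaurentSeries κ (`emb_algebraMap`); an element of PowerSeries κ algebraic over κ[X] is integral over RatFunc κ in
LaurentSeries κ (`isAlgebraic_iff_isIntegral`, `IsFractionRing.isAlgebraic_iff` with the local instance
(emb κ).toAlgebra, or divide a polynomial relation by its leading coefficient by hand). -/
theorem exists_AB {κ : Type} [Field κ] [CharZero κ] {ω : κ} (hω : ω ^ 2 = -1)
    (B : Finset κ) {a : κ} (ha : a ∉ B)
    (hν : ∀ b ∈ B, ∃ ν : κ, ν ^ 4 * ((derivative (Tp B)).eval b) ^ 4 = -(b - a))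
    (P : κ[X][X]) (hP : P.natDegree < B.card) :
    ∃ U V : (LaurentSeries κ)[X], (∀ n, (emb κ).IsIntegralElem (U.coeff n)) ∧
      (∀ n, (emb κ).IsIntegralElem (V.coeff n)) ∧
      U ^ 2 - C (emb κ RatFunc.X) * V ^ 2 =
        (Gam RatFunc.X (RatFunc.C a) ((Tp B).map RatFunc.C)
          (P.map (algebraMap κ[X] (RatFunc κ)))).map (emb κ) := by
  set i0 : κ[X] →+* PowerSeries κ := algebraMap κ[X] (PowerSeries κ) with hi0
  have hi0X : i0 X = PowerSeries.X := by
    rw [hi0, PowerSeries.algebraMap_apply']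
    simp
  have hi0C : ∀ c : κ, i0 (C c) = PowerSeries.C c := fun c => by
    rw [hi0, PowerSeries.algebraMap_apply']
    simp
  set P0 : (PowerSeries κ)[X] := P.map i0 with hP0
  set P1 : (PowerSeries κ)[X] := P0.map (psi κ) with hP1
  have hPi : P1.map (PowerSeries.evalNegHom (A := κ)) = P1 := by
    rw [hP1, Polynomial.map_map]
    congr 1
    exact RingHom.ext fun p => evalNeg_psi κ p
  have hdeg : P1.natDegree < B.card :=
    lt_of_le_of_lt (Polynomial.natDegree_map_le.trans Polynomial.natDegree_map_le) hP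
  obtain ⟨f, hfm, hff⟩ := exists_split hω B ha hν P1 hdeg hPi
  obtain ⟨A, B', hAB⟩ := exists_even_odd_poly f
  have hcomp0 : i0.comp (C : κ →+* κ[X]) = (PowerSeries.C : κ →+* PowerSeries κ) :=
    RingHom.ext hi0C
  have hcomp1 : (psi κ).comp (PowerSeries.C : κ →+* PowerSeries κ) = PowerSeries.C :=
    RingHom.ext fun c => psi_C κ c
  -- the polynomial over power series in s
  have hG0 : (Gam X (C a) ((Tp B).map C) P : κ[X][X]).map i0 =
      Gam PowerSeries.X (PowerSeries.C a) ((Tp B).map PowerSeries.C) P0 := by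
    rw [Gam.map, hi0X, hi0C, Polynomial.map_map, hcomp0]
  have hG1 : (Gam PowerSeries.X (PowerSeries.C a) ((Tp B).map PowerSeries.C) P0).map (psi κ) =
      Gam (PowerSeries.X ^ 2) (PowerSeries.C a) ((Tp B).map PowerSeries.C) P1 := by
    rw [Gam.map, psi_X, psi_C, Polynomial.map_map, hcomp1]
  have hkey : A ^ 2 - C PowerSeries.X * B' ^ 2 =
      Gam PowerSeries.X (PowerSeries.C a) ((Tp B).map PowerSeries.C) P0 := by
    apply Polynomial.map_injective _ (psi_injective κ)
    rw [hG1, ← hff, hAB, mul_conj]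
  have hGm : (Gam X (C a) ((Tp B).map C) P : κ[X][X]).Monic := by
    refine (Gam.monic X (C a) ((Tp.monic B).map C) ?_).1
    rw [(Tp.monic B).natDegree_map, Tp.natDegree]
    exact hP
  have halg : ∀ n, IsAlgebraic κ[X] (A.coeff n) ∧ IsAlgebraic κ[X] (B'.coeff n) := by
    refine isAlgebraic_coeffs _ hGm A B' ?_ ?_
    · rw [← hAB]; exact hfm
    · rw [← hAB, ← hi0, hG0, hG1, ← hff]
      exact dvd_mul_right _ _
  refine ⟨A.map (HahnSeries.ofPowerSeries ℤ κ), B'.map (HahnSeries.ofPowerSeries ℤ κ), ?_, ?_, ?_⟩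
  · intro n
    rw [Polynomial.coeff_map]
    exact aB_integral (halg n).1
  · intro n
    rw [Polynomial.coeff_map]
    exact aB_integral (halg n).2
  · have h1 := congrArg (Polynomial.map (HahnSeries.ofPowerSeries ℤ κ)) hkey
    rw [Polynomial.map_sub, Polynomial.map_mul, Polynomial.map_pow, Polynomial.map_pow,
      Polynomial.map_C, Gam.map] at h1
    rw [Gam.map, emb_X, tau, h1, emb_C, HahnSeries.ofPowerSeries_C, Polynomial.map_map,
      Polynomial.map_map, Polynomial.map_map, Polynomial.map_map]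
    have e1 : (HahnSeries.ofPowerSeries ℤ κ).comp (PowerSeries.C : κ →+* PowerSeries κ) =
        (emb κ).comp RatFunc.C := by
      refine RingHom.ext fun c => ?_
      rw [RingHom.comp_apply, RingHom.comp_apply, emb_C, HahnSeries.ofPowerSeries_C]
    have e2 : (HahnSeries.ofPowerSeries ℤ κ).comp i0 =
        (emb κ).comp (algebraMap κ[X] (RatFunc κ)) :=
      RingHom.ext fun r => (emb_algebraMap κ r).symm
    rw [e1, e2]

end MP4369f4
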