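import Pool.Agent.Lib_MP_4369f4_top.Defs

/-! H27 A4: leading term of p(c) for c close to a simple root θ of p. -/

namespace MP4369f4

open Polynomial

private theorem MinLead_tau_ne_zero (κ : Type) [Field κ] : tau κ ≠ 0 := by
  intro h
  have h1 : (PowerSeries.X : PowerSeries κ) = 0 := by
    apply HahnSeries.ofPowerSeries_injective (Γ := ℤ) (R := κ)
    rw [map_zero]
    exact h
  exact PowerSeries.X_ne_zero h1

private theorem MinLead_tau_pow {κ : Type} [Field κ] (n : ℤ) (hn : 0 ≤ n) :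
    tau κ ^ n = HahnSeries.ofPowerSeries ℤ κ (PowerSeries.X ^ n.toNat) := by
  conv_lhs => rw [← Int.toNat_of_nonneg hn, zpow_natCast]
  rw [map_pow]
  rfl

private theorem MinLead_form {κ : Type} [Field κ] (f : LaurentSeries κ) :
    f = tau κ ^ f.order * HahnSeries.ofPowerSeries ℤ κ f.powerSeriesPart := by
  have h1 := LaurentSeries.single_order_mul_powerSeriesPart f
  have h2 : tau κ ^ f.order = (HahnSeries.single f.order 1 : LaurentSeries κ) := by
    rw [tau, HahnSeries.ofPowerSeries_X]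
    exact (RatFunc.single_zpow f.order).symm
  rw [h2]
  exact h1.symm

private theorem MinLead_clear {κ : Type} [Field κ] (f : LaurentSeries κ) :
    ∃ (L : ℕ) (g : PowerSeries κ), tau κ ^ (L : ℤ) * f = HahnSeries.ofPowerSeries ℤ κ g := by
  obtain ⟨n, g, hf⟩ : ∃ (n : ℤ) (g : PowerSeries κ),
      f = tau κ ^ n * HahnSeries.ofPowerSeries ℤ κ g := ⟨_, _, MinLead_form f⟩
  refine ⟨(-n).toNat, PowerSeries.X ^ (((-n).toNat : ℤ) + n).toNat * g, ?_⟩
  have h0 := MinLead_tau_ne_zero κ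
  have h1 : 0 ≤ ((-n).toNat : ℤ) + n := by omega
  rw [hf, ← mul_assoc, ← zpow_add₀ h0, MinLead_tau_pow _ h1, map_mul]

private theorem MinLead_poly {κ : Type} [Field κ] (q : (LaurentSeries κ)[X]) :
    ∃ L : ℕ, ∀ y : PowerSeries κ, ∃ h : PowerSeries κ,
      tau κ ^ (L : ℤ) * q.eval (HahnSeries.ofPowerSeries ℤ κ y) =
        HahnSeries.ofPowerSeries ℤ κ h := by
  have h0 := MinLead_tau_ne_zero κ
  induction q using Polynomial.induction_on' with
  | add q1 q2 h1 h2 =>
    obtain ⟨L1, h1⟩ := h1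
    obtain ⟨L2, h2⟩ := h2
    refine ⟨L1 + L2, fun y => ?_⟩
    obtain ⟨g1, hg1⟩ := h1 y
    obtain ⟨g2, hg2⟩ := h2 y
    refine ⟨PowerSeries.X ^ L2 * g1 + PowerSeries.X ^ L1 * g2, ?_⟩
    have e1 := MinLead_tau_pow (κ := κ) (L1 : ℤ) (by positivity)
    have e2 := MinLead_tau_pow (κ := κ) (L2 : ℤ) (by positivity)
    rw [Int.toNat_natCast] at e1 e2
    rw [eval_add, map_add, map_mul, map_mul, ← e1, ← e2, ← hg1, ← hg2, Nat.cast_add,
      zpow_add₀ h0]
    ring
  | monomial n a =>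
    obtain ⟨L, g, hg⟩ := MinLead_clear a
    refine ⟨L, fun y => ⟨g * y ^ n, ?_⟩⟩
    rw [eval_monomial, map_mul, map_pow, ← hg, mul_assoc]

/-- Over E = LaurentSeries κ: p.map emb = (X - C θ) * r, r(θ) = p'(θ) not 0, r(θ) = tau^e r1 with r1(0) = r0 not
0. r(θ + δ) = r(θ) + δ q(δ) for a polynomial q over E (Taylor: r.comp (X + C θ) - C (r(θ)) is divisible by X). For
δ = tau^M g with M >= 0 the element q(δ) lies in tau^(-L) κ[[tau]] with L depending only on q (finitely
many coefficients), so for M >= M0 = max 0 (e + 1 + L): r(θ + δ) = tau^e (r1 + tau ...). Finally emb (p(c)) = (emb c - θ) r(emb c),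
emb c = θ + δ. -/
theorem eval_lead {κ : Type} [Field κ] (θ : LaurentSeries κ) (p : (RatFunc κ)[X])
    (h0 : (p.map (emb κ)).eval θ = 0) (h1 : (derivative (p.map (emb κ))).eval θ ≠ 0) :
    ∃ (e : ℤ) (r0 : κ) (M0 : ℤ), r0 ≠ 0 ∧ ∀ M : ℤ, M0 ≤ M → ∀ (c : RatFunc κ) (g : PowerSeries κ),
      emb κ c - θ = tau κ ^ M * HahnSeries.ofPowerSeries ℤ κ g →
      ∃ r : PowerSeries κ, PowerSeries.constantCoeff r = r0 ∧
        emb κ (p.eval c) = tau κ ^ (M + e) * HahnSeries.ofPowerSeries ℤ κ g *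
          HahnSeries.ofPowerSeries ℤ κ r := by
  have ht := MinLead_tau_ne_zero κ
  set P : (LaurentSeries κ)[X] := p.map (emb κ) with hP
  set d : LaurentSeries κ := (derivative P).eval θ with hd
  set T : (LaurentSeries κ)[X] := taylor θ P with hT
  have hT0 : T.coeff 0 = 0 := by rw [hT, taylor_coeff_zero, h0]
  have hT1 : T.coeff 1 = d := by rw [hT, taylor_coeff_one]
  set q : (LaurentSeries κ)[X] := T.divX.divX with hq
  have hev : ∀ δ, P.eval (θ + δ) = (q.eval δ * δ + d) * δ := by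
    intro δ
    have e1 : P.eval (θ + δ) = T.eval δ := by
      rw [hT, taylor_eval, add_comm]
    have e2 : T = T.divX * X + C (T.coeff 0) := (divX_mul_X_add T).symm
    have e3 : T.divX = T.divX.divX * X + C (T.divX.coeff 0) := (divX_mul_X_add T.divX).symm
    have e4 : T.divX.coeff 0 = d := by rw [coeff_divX, zero_add, hT1]
    rw [e1, e2, hT0, eval_add, eval_mul, eval_X, eval_C, add_zero, e3, e4, ← hq, eval_add,
      eval_mul, eval_X, eval_C]
  obtain ⟨L, hL⟩ := MinLead_poly q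
  refine ⟨d.order, PowerSeries.constantCoeff d.powerSeriesPart, max 0 (d.order + 1 + L), ?_, ?_⟩
  · rw [← PowerSeries.coeff_zero_eq_constantCoeff_apply, LaurentSeries.powerSeriesPart_coeff]
    rw [Nat.cast_zero, add_zero]
    exact HahnSeries.coeff_order_eq_zero.not.2 h1
  · intro M hM c g hg
    have hM0 : 0 ≤ M := (le_max_left _ _).trans hM
    have hM1 : d.order + 1 + L ≤ M := (le_max_right _ _).trans hM
    have e1 : emb κ (p.eval c) = P.eval (emb κ c) := by
      rw [hP, eval_map, eval₂_at_apply]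
    have e2 : emb κ c = θ + tau κ ^ M * HahnSeries.ofPowerSeries ℤ κ g := by rw [← hg]; ring
    have e3 : tau κ ^ M * HahnSeries.ofPowerSeries ℤ κ g =
        HahnSeries.ofPowerSeries ℤ κ (PowerSeries.X ^ M.toNat * g) := by
      rw [map_mul, MinLead_tau_pow M hM0]
    obtain ⟨h, hh⟩ := hL (PowerSeries.X ^ M.toNat * g)
    refine ⟨d.powerSeriesPart + PowerSeries.X ^ (M - L - d.order).toNat * (h * g), ?_, ?_⟩
    · rw [map_add, map_mul, map_pow, PowerSeries.constantCoeff_X,
        zero_pow (by omega), zero_mul, add_zero]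
    · rw [e1, e2, hev, map_add, map_mul, ← MinLead_tau_pow _ (by omega), map_mul, ← hh, ← e3]
      conv_lhs => rw [MinLead_form d]
      have e4 : tau κ ^ (M - L - d.order) * tau κ ^ (L : ℤ) * tau κ ^ d.order = tau κ ^ M := by
        rw [← zpow_add₀ ht, ← zpow_add₀ ht]
        congr 1
        ring
      rw [zpow_add₀ ht]
      linear_combination (-(tau κ ^ M) * HahnSeries.ofPowerSeries ℤ κ g ^ 2 *
        q.eval (tau κ ^ M * HahnSeries.ofPowerSeries ℤ κ g)) * e4

end MP4369f4
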