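import Pool.Agent.Lib_MP_4369f4_top.Defs

/-! H27 A3: approximation of a Laurent series by rational functions. -/

namespace MP4369f4

open Polynomial

private theorem trunc_tau_ne (κ : Type) [Field κ] : tau κ ≠ 0 := by
  intro h
  have h1 : (PowerSeries.X : PowerSeries κ) = 0 := by
    apply HahnSeries.ofPowerSeries_injective (Γ := ℤ) (R := κ)
    rw [map_zero]
    exact h
  exact PowerSeries.X_ne_zero h1

private theorem trunc_tau_zpow (κ : Type) [Field κ] (n : ℤ) :
    tau κ ^ n = (HahnSeries.single n 1 : LaurentSeries κ) := by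
  rw [tau, HahnSeries.ofPowerSeries_X]
  exact (RatFunc.single_zpow n).symm

/-- θ = tau^(-L) Q with M + L a natural number. -/
private theorem trunc_form {κ : Type} [Field κ] (θ : LaurentSeries κ) (M : ℤ) :
    ∃ (L N : ℕ) (Q : PowerSeries κ), (M + L = N) ∧
      θ = tau κ ^ (-(L : ℤ)) * HahnSeries.ofPowerSeries ℤ κ Q := by
  have ht := trunc_tau_ne κ
  set n := θ.order with hn
  have h1 : tau κ ^ n * HahnSeries.ofPowerSeries ℤ κ θ.powerSeriesPart = θ := by
    rw [trunc_tau_zpow]
    exact LaurentSeries.single_order_mul_powerSeriesPart θ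
  obtain ⟨L, hL1, hL2⟩ : ∃ L : ℕ, 0 ≤ n + L ∧ 0 ≤ M + L :=
    ⟨n.natAbs + M.natAbs, by omega, by omega⟩
  obtain ⟨j, hj⟩ := Int.eq_ofNat_of_zero_le hL1
  obtain ⟨N, hN⟩ := Int.eq_ofNat_of_zero_le hL2
  refine ⟨L, N, PowerSeries.X ^ j * θ.powerSeriesPart, hN, ?_⟩
  conv_lhs => rw [← h1]
  rw [map_mul, map_pow]
  have h2 : (HahnSeries.ofPowerSeries ℤ κ) (PowerSeries.X : PowerSeries κ) = tau κ := rfl
  rw [h2, ← zpow_natCast, ← mul_assoc, ← zpow_add₀ ht]
  congr 2
  omega

/-- Choose a natural L with θ = tau^(-L) Q, Q a power series, and M + L >= 0 (from `lead_form`-like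
`LaurentSeries.single_order_mul_powerSeriesPart`, multiply Q by a power of the variable). N = M + L. Then
c = X^(-L) (trunc (N + 1) Q + u X^N) (`PowerSeries.trunc`, `emb_algebraMap`, `emb_X`):
emb c - θ = tau^(-L) (trunc Q - Q + u X^N), and trunc (N + 1) Q - Q is divisible by X^(N + 1). -/
theorem exists_trunc {κ : Type} [Field κ] (θ : LaurentSeries κ) (M : ℤ) (u : κ) :
    ∃ (c : RatFunc κ) (g : PowerSeries κ), PowerSeries.constantCoeff g = u ∧
      emb κ c - θ = tau κ ^ M * HahnSeries.ofPowerSeries ℤ κ g := by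
  have ht := trunc_tau_ne κ
  obtain ⟨L, N, Q, hN, hθ⟩ := trunc_form θ M
  have hdvd : (PowerSeries.X : PowerSeries κ) ^ (N + 1) ∣
      algebraMap κ[X] (PowerSeries κ) (PowerSeries.trunc (N + 1) Q) - Q := by
    rw [PowerSeries.X_pow_dvd_iff]
    intro m hm
    rw [map_sub, PowerSeries.algebraMap_apply']
    simp only [Algebra.algebraMap_self, PowerSeries.map_id, id_eq]
    rw [Polynomial.coeff_coe, PowerSeries.coeff_trunc, if_pos hm, sub_self]
  obtain ⟨W, hW⟩ := hdvd
  refine ⟨RatFunc.X ^ (-(L : ℤ)) * algebraMap κ[X] (RatFunc κ)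
    (PowerSeries.trunc (N + 1) Q + C u * X ^ N), PowerSeries.C u + PowerSeries.X * W, ?_, ?_⟩
  · simp
  · rw [map_mul, map_zpow₀, emb_X, emb_algebraMap, hθ, ← mul_sub, ← map_sub]
    have h1 : algebraMap κ[X] (PowerSeries κ) (PowerSeries.trunc (N + 1) Q + C u * X ^ N) - Q =
        PowerSeries.X ^ N * (PowerSeries.C u + PowerSeries.X * W) := by
      have h2 : algebraMap κ[X] (PowerSeries κ) (C u * X ^ N) =
          PowerSeries.C u * PowerSeries.X ^ N := by
        rw [PowerSeries.algebraMap_apply']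
        simp
      rw [map_add, h2]
      linear_combination hW
    rw [h1, map_mul, map_pow]
    have h2 : (HahnSeries.ofPowerSeries ℤ κ) (PowerSeries.X : PowerSeries κ) = tau κ := rfl
    rw [h2, ← zpow_natCast, ← mul_assoc, ← zpow_add₀ ht]
    congr 2
    omega

end MP4369f4
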