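import Pool.Agent.Lib_MP_4369f4_top.NotNrm
import Pool.Agent.Lib_MP_4369f4_top.Trunc
import Pool.Agent.Lib_MP_4369f4_top.MinLead

/-! H27 A1: two values of p whose product is u times a square near s = 0. -/

namespace MP4369f4

open Polynomial

private theorem Approx_tau_ne_zero (κ : Type) [Field κ] : tau κ ≠ 0 := by
  intro h
  have h1 : (PowerSeries.X : PowerSeries κ) = 0 := by
    apply HahnSeries.ofPowerSeries_injective (Γ := ℤ) (R := κ)
    rw [map_zero]
    exact h
  exact PowerSeries.X_ne_zero h1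

/-- `eval_lead`, `exists_trunc` at M = M0 with u and with 1, `not_nrm_of_lead`: the product is
tau^(2 (M0 + e)) g1 g2 r r' with constant coefficient u r0^2, not a square; in particular both values are not 0. -/
theorem exists_two_values {κ : Type} [Field κ] {u : κ} (hu : ¬ IsSquare u)
    (θ : LaurentSeries κ) (p : (RatFunc κ)[X])
    (h0 : (p.map (emb κ)).eval θ = 0) (h1 : (derivative (p.map (emb κ))).eval θ ≠ 0) :
    ∃ c1 c2 : RatFunc κ, p.eval c1 ≠ 0 ∧ p.eval c2 ≠ 0 ∧
      ¬ Nrm RatFunc.X (p.eval c1 * p.eval c2) := by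
  obtain ⟨e, r0, M0, hr0, hM⟩ := eval_lead θ p h0 h1
  obtain ⟨c1, g1, hg1, hc1⟩ := exists_trunc θ M0 u
  obtain ⟨c2, g2, hg2, hc2⟩ := exists_trunc θ M0 1
  obtain ⟨r1, hr1, he1⟩ := hM M0 le_rfl c1 g1 hc1
  obtain ⟨r2, hr2, he2⟩ := hM M0 le_rfl c2 g2 hc2
  have key : ¬ Nrm RatFunc.X (p.eval c1 * p.eval c2) := by
    refine not_nrm_of_lead (n := M0 + e) (g := g1 * r1 * (g2 * r2)) ?_ ?_
    · rw [map_mul, map_mul, map_mul, hg1, hg2, hr1, hr2]
      rintro ⟨y, hy⟩
      apply hu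
      refine ⟨y / r0, ?_⟩
      field_simp
      linear_combination hy
    · have h3 : tau κ ^ (2 * (M0 + e)) = tau κ ^ (M0 + e) * tau κ ^ (M0 + e) := by
        rw [← zpow_add₀ (Approx_tau_ne_zero κ), ← two_mul]
      rw [map_mul, he1, he2, map_mul, map_mul, map_mul, h3]
      ring
  have hz : Nrm (RatFunc.X : RatFunc κ) 0 := ⟨0, 0, by ring⟩
  refine ⟨c1, c2, ?_, ?_, key⟩
  · intro h
    apply key
    rw [h, zero_mul]
    exact hz
  · intro h
    apply key
    rw [h, mul_zero]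
    exact hz

end MP4369f4
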