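import Pool.Agent.Lib_MP_4369f4_m.Main

/-!
MP_4369f4_lc, squad H27: for all n >= 3 the ring C[t_1,...,t_n] is first-order definable in
C(t_1,...,t_n). Definitions. Paper proof: board note 1217.

Levels: kappa has level m + 1 (variables t_0, ..., t_m), k = kappa(s) has level m + 2, s = t_(m+1),
K = k(X) has level m + 3, X = t_(m+2).
-/

namespace MP4369f4

open Polynomial

section

variable {K : Type*} [Field K]

/-- The sequence s, h, h, ...; `Rep 2 (Qd s h)` are the values of the form <1, -s, -h, s h>. -/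
def Qd (s h : K) : ℕ → K := fun j => if j = 0 then s else h

/-- w (in K) with 1 + x w^2 a value of <1, -s, -h, s h>, h in k not a norm of sqrt s. -/
def J1 (m : ℕ) (t : ℕ → K) (x w : K) : Prop :=
  ∃ h, InK (m + 2) t h ∧ ¬ Nrm (t (m + 1)) h ∧ Rep 2 (Qd (t (m + 1)) h) (1 + x * w ^ 2)

/-- Some multiple l g, l in k not 0, is the sum of two elements of J1. -/
def J2 (m : ℕ) (t : ℕ → K) (x g : K) : Prop :=
  ∃ l w1 w2, InK (m + 2) t l ∧ l ≠ 0 ∧ J1 m t x w1 ∧ J1 m t x w2 ∧ l * g = w1 + w2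

/-- u is regular at x = 0. -/
def J3 (m : ℕ) (t : ℕ → K) (x u : K) : Prop :=
  ∃ j1 j2, J2 m t x j1 ∧ J2 m t x j2 ∧ u * (1 + x * j2) = j1

/-- f lies in C[t_0,...,t_(m+2)]. -/
def PolTop (m : ℕ) (t : ℕ → K) (f : K) : Prop :=
  ∀ c, Cst c → ∃ r u, PolD (m + 1) t r ∧ J3 m t (t (m + 2) - c) u ∧ f = r + (t (m + 2) - c) * u

end

/-- The polynomial T^4 + s^2 (X - a) (s P T - 1)^2. -/
noncomputable def Gam {R : Type*} [CommRing R] (s a : R) (T P : R[X]) : R[X] :=
  T ^ 4 + C (s ^ 2) * (X - C a) * (C s * P * T - 1) ^ 2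

/-- The product of the X - b, b in B. -/
noncomputable def Tp {R : Type*} [CommRing R] (B : Finset R) : R[X] := ∏ b ∈ B, (X - C b)

theorem Gam.map {R S : Type*} [CommRing R] [CommRing S] (f : R →+* S) (s a : R) (T P : R[X]) :
    (Gam s a T P).map f = Gam (f s) (f a) (T.map f) (P.map f) := by
  simp [Gam, Polynomial.map_add, Polynomial.map_mul, Polynomial.map_pow, Polynomial.map_sub]

/-- u is regular at a. -/
def Reg {k : Type} [Field k] (a : k) (u : RatFunc k) : Prop :=
  ∃ P Q : k[X], Q.eval a ≠ 0 ∧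
    u = algebraMap k[X] (RatFunc k) P / algebraMap k[X] (RatFunc k) Q

/-- 1 + (X - a) w^2 is a value of <1, -s, -h, s h> for some h in k which is not a norm of sqrt s. -/
def JJ {k : Type} [Field k] (s a : k) (w : RatFunc k) : Prop :=
  ∃ h : k, ¬ Nrm s h ∧
    Rep 2 (Qd (RatFunc.C s : RatFunc k) (RatFunc.C h)) (1 + (RatFunc.X - RatFunc.C a) * w ^ 2)

/-- The substitution s -> S^2 of power series. -/
noncomputable def psi (κ : Type) [Field κ] : PowerSeries κ →+* PowerSeries κ :=
  (PowerSeries.expand 2 two_ne_zero : PowerSeries κ →ₐ[κ] PowerSeries κ).toRingHom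

open scoped RatFunc in
/-- The embedding of κ(s) into κ((s)). -/
noncomputable def emb (κ : Type) [Field κ] : RatFunc κ →+* LaurentSeries κ :=
  algebraMap (RatFunc κ) (LaurentSeries κ)

theorem emb_X (κ : Type) [Field κ] : emb κ RatFunc.X = tau κ := by
  rw [tau, HahnSeries.ofPowerSeries_X]
  exact RatFunc.coe_X

theorem emb_algebraMap (κ : Type) [Field κ] (p : κ[X]) :
    emb κ (algebraMap κ[X] (RatFunc κ) p) =
      HahnSeries.ofPowerSeries ℤ κ (algebraMap κ[X] (PowerSeries κ) p) :=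
  (RatFunc.coe_coe p).symm

theorem emb_C (κ : Type) [Field κ] (a : κ) : emb κ (RatFunc.C a) = HahnSeries.C a := by
  rw [← RatFunc.algebraMap_C, emb_algebraMap]
  simp [PowerSeries.algebraMap_apply']

/-! ### Pfister forms as diagonal forms -/

/-- Index type of dimension 2^m. -/
def PI : ℕ → Type
  | 0 => Unit
  | (m + 1) => PI m ⊕ PI m

/-- The coefficients of the diagonal form. -/
def pfc {K : Type*} [Field K] : (m : ℕ) → (ℕ → K) → PI m → K
  | 0, _, _ => 1
  | (m + 1), d, Sum.inl i => pfc m d i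
  | (m + 1), d, Sum.inr i => -(d m * pfc m d i)

instance PI.fintype : (m : ℕ) → Fintype (PI m)
  | 0 => inferInstanceAs (Fintype Unit)
  | (m + 1) => letI := PI.fintype m; inferInstanceAs (Fintype (PI m ⊕ PI m))

end MP4369f4
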