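import Pool.Agent.Lib_MP_4369f4_top.Defs

/-! H27 N0: Pfister forms as diagonal forms (explicit coefficients, compare RepDiag of H22). -/

namespace MP4369f4

open Polynomial

theorem pfc_map {K L : Type*} [Field K] [Field L] (f : K →+* L) (m : ℕ) (d : ℕ → K) (i : PI m) :
    f (pfc m d i) = pfc m (fun j => f (d j)) i := by
  induction m with
  | zero => exact map_one f
  | succ m ih =>
    cases i with
    | inl i => exact ih i
    | inr i =>
      change f (-(d m * pfc m d i)) = -(f (d m) * pfc m (fun j => f (d j)) i)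
      rw [map_neg, map_mul, ih]

private theorem Diag_sum {K : Type*} [Field K] (m : ℕ) (d : ℕ → K) (v : PI (m + 1) → K) :
    ∑ i, pfc (m + 1) d i * v i ^ 2 =
      ∑ i : PI m, pfc m d i * v (Sum.inl i) ^ 2 -
        d m * ∑ i : PI m, pfc m d i * v (Sum.inr i) ^ 2 := by
  have h : ∑ i, pfc (m + 1) d i * v i ^ 2 =
      ∑ i : PI m, pfc m d i * v (Sum.inl i) ^ 2 +
        ∑ i : PI m, -(d m * pfc m d i) * v (Sum.inr i) ^ 2 :=
    Fintype.sum_sum_type (α₁ := PI m) (α₂ := PI m) (fun i => pfc (m + 1) d i * v i ^ 2)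
  rw [h, Finset.mul_sum, sub_eq_add_neg, ← Finset.sum_neg_distrib]
  congr 1
  refine Finset.sum_congr rfl fun i _ => ?_
  ring

/-- Induction on m; the sum over PI (m + 1) is a sum over PI m ⊕ PI m (`Fintype.sum_sum_type`). -/
theorem rep_iff_pfc {K : Type*} [Field K] (m : ℕ) (d : ℕ → K) (x : K) :
    Rep m d x ↔ ∃ v : PI m → K, x = ∑ i, pfc m d i * v i ^ 2 := by
  induction m generalizing x with
  | zero =>
    have h : ∀ v : PI 0 → K, ∑ i, pfc 0 d i * v i ^ 2 = v () ^ 2 := by
      intro v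
      have h1 : ∑ i, pfc 0 d i * v i ^ 2 = (1 : K) * v () ^ 2 :=
        Fintype.sum_unique (ι := Unit) (fun i => pfc 0 d i * v i ^ 2)
      rw [h1, one_mul]
    constructor
    · rintro ⟨u, rfl⟩
      exact ⟨fun _ => u, (h (fun _ => u)).symm⟩
    · rintro ⟨v, rfl⟩
      exact ⟨v (), h v⟩
  | succ m ih =>
    constructor
    · rintro ⟨v, w, hv, hw, rfl⟩
      obtain ⟨a, rfl⟩ := (ih v).1 hv
      obtain ⟨b, rfl⟩ := (ih w).1 hw
      exact ⟨Sum.elim a b, (Diag_sum m d (Sum.elim a b)).symm⟩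
    · rintro ⟨v, rfl⟩
      exact ⟨_, _, (ih _).2 ⟨fun i => v (Sum.inl i), rfl⟩,
        (ih _).2 ⟨fun i => v (Sum.inr i), rfl⟩, Diag_sum m d v⟩

/-- Induction on m, `rep_iff_pfc`. -/
theorem aniso_iff_pfc {K : Type*} [Field K] (m : ℕ) (d : ℕ → K) :
    Aniso m d ↔ ∀ v : PI m → K, ∑ i, pfc m d i * v i ^ 2 = 0 → v = 0 := by
  induction m with
  | zero =>
    refine ⟨fun _ v hv => ?_, fun _ => trivial⟩
    have h1 : ∑ i, pfc 0 d i * v i ^ 2 = (1 : K) * v () ^ 2 :=
      Fintype.sum_unique (ι := Unit) (fun i => pfc 0 d i * v i ^ 2)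
    rw [h1, one_mul] at hv
    funext i
    exact pow_eq_zero_iff (two_ne_zero) |>.1 hv
  | succ m ih =>
    constructor
    · rintro ⟨h1, h2⟩ v hv
      rw [Diag_sum] at hv
      have h3 : ∑ i : PI m, pfc m d i * v (Sum.inr i) ^ 2 = 0 :=
        h2 _ _ ((rep_iff_pfc m d _).2 ⟨fun i => v (Sum.inl i), rfl⟩)
          ((rep_iff_pfc m d _).2 ⟨fun i => v (Sum.inr i), rfl⟩) (sub_eq_zero.1 hv)
      rw [h3, mul_zero, sub_zero] at hv
      have h4 := ih.1 h1 (fun i => v (Sum.inl i)) hv
      have h5 := ih.1 h1 (fun i => v (Sum.inr i)) h3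
      funext i
      cases i with
      | inl i => exact congrFun h4 i
      | inr i => exact congrFun h5 i
    · intro h
      constructor
      · rw [ih]
        intro v hv
        have h1 := h (Sum.elim v 0) (by
          rw [Diag_sum]
          simp only [Sum.elim_inl, Sum.elim_inr, Pi.zero_apply]
          rw [hv]
          simp)
        funext i
        exact congrFun h1 (Sum.inl i)
      · intro v w hv hw hvw
        obtain ⟨a, rfl⟩ := (rep_iff_pfc m d v).1 hv
        obtain ⟨b, rfl⟩ := (rep_iff_pfc m d w).1 hw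
        have h1 := h (Sum.elim a b) (by
          rw [Diag_sum]
          simp only [Sum.elim_inl, Sum.elim_inr]
          rw [hvw, sub_self])
        refine Finset.sum_eq_zero fun i _ => ?_
        have h2 : b i = 0 := congrFun h1 (Sum.inr i)
        rw [h2]
        ring

end MP4369f4
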