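import Pool.Agent.Lib_MP_4369f4_top.Defs

/-! H27 S1: values of anisotropic Pfister forms over k have even order. -/

namespace MP4369f4

open Polynomial

private theorem evRep_fac {k : Type} [Field k] (a : k) {A : k[X]} (hA : A ≠ 0) :
    ∃ A' : k[X], A'.eval a ≠ 0 ∧ A = (X - C a) ^ (A.rootMultiplicity a) * A' := by
  obtain ⟨H, hH, hnd⟩ := Polynomial.exists_eq_pow_rootMultiplicity_mul_and_not_dvd A hA a
  exact ⟨H, fun h0 => hnd (Polynomial.dvd_iff_isRoot.mpr h0), hH⟩

/-- `exists_place` (K = L = k, θ = a) gives j; f = A/B with A = f.num, B = f.denom; j(A) = tau^α g1,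
j(B) = tau^β g2 with α, β the multiplicities of a, so j(f) = tau^(α - β) (g1/g2). By `Rep.map`,
`rep_laurent` and `tau_zpow_eq` (after multiplying by j(B)) the integer α - β is even. So the multiplicity of a in
A B is 2 n; A B = (X - C a)^(2 n) G, G(a) not 0, and f = G ((X - C a)^n / B)^2. -/
theorem evOrd_of_rep {k : Type} [Field k] {m : ℕ} {d : ℕ → k} (ha : Aniso m d) (a : k)
    {f : RatFunc k} (hf : f ≠ 0) (hr : Rep m (fun j => (RatFunc.C (d j) : RatFunc k)) f) :
    EvOrd a f := by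
  obtain ⟨j, hj1, hj2⟩ := exists_place (K := k) (L := k) a
  have hA : f.num ≠ 0 := RatFunc.num_ne_zero hf
  have hB : f.denom ≠ 0 := RatFunc.denom_ne_zero f
  have hBm : algebraMap k[X] (RatFunc k) f.denom ≠ 0 := RatFunc.algebraMap_ne_zero hB
  have hfAB : f * algebraMap k[X] (RatFunc k) f.denom = algebraMap k[X] (RatFunc k) f.num :=
    ((div_eq_iff hBm).1 (RatFunc.num_div_denom f)).symm
  obtain ⟨g1, hg1, e1⟩ := hj2 f.num hA
  obtain ⟨g2, hg2, e2⟩ := hj2 f.denom hB
  rw [Algebra.algebraMap_self, Polynomial.map_id] at e1 e2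
  have hrj : Rep m (fun i => (HahnSeries.C (d i) : LaurentSeries k)) (j f) := by
    refine (hr.map j).congr (fun i _ => ?_)
    rw [hj1, Algebra.algebraMap_self, RingHom.id_apply]
  obtain ⟨n, g, hg, -, e3⟩ := rep_laurent ha hrj ((map_ne_zero j).2 hf)
  have ht : tau k ≠ 0 := by
    intro h
    have h1 : (PowerSeries.X : PowerSeries k) = 0 := by
      apply HahnSeries.ofPowerSeries_injective (Γ := ℤ) (R := k)
      rw [map_zero]
      exact h
    exact PowerSeries.X_ne_zero h1
  have h4 : tau k ^ (2 * n + (f.denom.rootMultiplicity a : ℤ)) *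
      HahnSeries.ofPowerSeries ℤ k (g * g2) =
      tau k ^ (f.num.rootMultiplicity a : ℤ) * HahnSeries.ofPowerSeries ℤ k g1 := by
    rw [← e1, ← hfAB, map_mul j, e2, e3, zpow_add₀ ht, map_mul]
    ring
  obtain ⟨h5, -⟩ := tau_zpow_eq (by rw [map_mul]; exact mul_ne_zero hg hg2) hg1 h4
  obtain ⟨A', hA', eA⟩ := evRep_fac a hA
  obtain ⟨B', hB', eB⟩ := evRep_fac a hB
  have hB0 : B' ≠ 0 := fun h => hB' (by rw [h, Polynomial.eval_zero])
  have hBm' : algebraMap k[X] (RatFunc k) B' ≠ 0 := RatFunc.algebraMap_ne_zero hB0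
  have hX : algebraMap k[X] (RatFunc k) (X - C a) ≠ 0 :=
    RatFunc.algebraMap_ne_zero (X_sub_C_ne_zero a)
  refine ⟨A' * B', (algebraMap k[X] (RatFunc k) (X - C a)) ^ n / algebraMap k[X] (RatFunc k) B',
    ?_, ?_, ?_⟩
  · rw [Polynomial.eval_mul]; exact mul_ne_zero hA' hB'
  · exact div_ne_zero (zpow_ne_zero _ hX) hBm'
  · apply mul_right_cancel₀ hBm
    rw [hfAB]
    conv_lhs => rw [eA]
    conv_rhs => rw [eB]
    simp only [map_mul, map_pow]
    have h6 : (algebraMap k[X] (RatFunc k) (X - C a)) ^ (f.num.rootMultiplicity a) =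
        ((algebraMap k[X] (RatFunc k) (X - C a)) ^ n) ^ 2 *
          (algebraMap k[X] (RatFunc k) (X - C a)) ^ (f.denom.rootMultiplicity a) := by
      rw [← zpow_natCast, ← h5, zpow_add₀ hX, zpow_natCast, ← zpow_natCast _ 2, ← zpow_mul]
      congr 2
      push_cast; ring
    rw [h6]
    field_simp

end MP4369f4
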