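import Pool.Agent.Lib_MP_4369f4_top.Defs

/-! H27 R3: even and odd parts of power series (ψ: s -> S^2). -/

namespace MP4369f4

open Polynomial

private theorem EvenOdd_coeff_even (κ : Type) [Field κ] (p : PowerSeries κ) (m : ℕ) :
    PowerSeries.coeff (2 * m) (psi κ p) = PowerSeries.coeff m p :=
  PowerSeries.coeff_expand_mul 2 two_ne_zero p m

private theorem EvenOdd_coeff_odd (κ : Type) [Field κ] (p : PowerSeries κ) (m : ℕ) :
    PowerSeries.coeff (2 * m + 1) (psi κ p) = 0 :=
  PowerSeries.coeff_expand_of_not_dvd 2 two_ne_zero p (by omega)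

theorem psi_injective (κ : Type) [Field κ] : Function.Injective (psi κ) := by
  intro p q h
  ext m
  rw [← EvenOdd_coeff_even, h, EvenOdd_coeff_even]

theorem psi_X (κ : Type) [Field κ] : psi κ PowerSeries.X = PowerSeries.X ^ 2 :=
  PowerSeries.expand_X 2 two_ne_zero

theorem psi_C (κ : Type) [Field κ] (a : κ) : psi κ (PowerSeries.C a) = PowerSeries.C a :=
  PowerSeries.expand_C 2 two_ne_zero a

/-- ψ(p) is even. -/
theorem evalNeg_psi (κ : Type) [Field κ] (p : PowerSeries κ) :
    PowerSeries.evalNegHom (psi κ p) = psi κ p := by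
  ext n
  rw [PowerSeries.evalNegHom, PowerSeries.coeff_rescale]
  rcases Nat.even_or_odd' n with ⟨m, rfl | rfl⟩
  · rw [pow_mul, neg_one_sq, one_pow, one_mul]
  · rw [EvenOdd_coeff_odd, mul_zero]

theorem exists_even_odd {κ : Type} [Field κ] (p : PowerSeries κ) :
    ∃ a b : PowerSeries κ, p = psi κ a + PowerSeries.X * psi κ b := by
  refine ⟨PowerSeries.mk fun n => PowerSeries.coeff (2 * n) p,
    PowerSeries.mk fun n => PowerSeries.coeff (2 * n + 1) p, ?_⟩
  ext n
  rw [map_add]
  rcases Nat.even_or_odd' n with ⟨m, rfl | rfl⟩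
  · rw [EvenOdd_coeff_even, PowerSeries.coeff_mk]
    rcases Nat.eq_zero_or_pos m with hm | hm
    · subst hm
      rw [mul_zero, PowerSeries.coeff_zero_X_mul, add_zero]
    · obtain ⟨k, rfl⟩ : ∃ k, m = k + 1 := ⟨m - 1, by omega⟩
      rw [show 2 * (k + 1) = (2 * k + 1) + 1 by ring, PowerSeries.coeff_succ_X_mul,
        EvenOdd_coeff_odd, add_zero]
  · rw [EvenOdd_coeff_odd, PowerSeries.coeff_succ_X_mul, EvenOdd_coeff_even,
      PowerSeries.coeff_mk, zero_add]

/-- Coefficientwise (build A, B from the coefficients of f, e.g. induction on polynomials). -/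
theorem exists_even_odd_poly {κ : Type} [Field κ] (f : (PowerSeries κ)[X]) :
    ∃ A B : (PowerSeries κ)[X], f = A.map (psi κ) + C PowerSeries.X * B.map (psi κ) := by
  induction f using Polynomial.induction_on' with
  | add p q hp hq =>
    obtain ⟨A, B, h1⟩ := hp
    obtain ⟨A', B', h3⟩ := hq
    refine ⟨A + A', B + B', ?_⟩
    rw [Polynomial.map_add, Polynomial.map_add, h1, h3]
    ring
  | monomial n a =>
    obtain ⟨a1, b1, h1⟩ := exists_even_odd a
    refine ⟨Polynomial.monomial n a1, Polynomial.monomial n b1, ?_⟩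
    rw [Polynomial.map_monomial, Polynomial.map_monomial, Polynomial.C_mul_monomial,
      ← map_add, ← h1]

/-- If f = ψA + S ψB then f times its conjugate is ψ(A^2 - s B^2). -/
theorem mul_conj {κ : Type} [Field κ] (A B : (PowerSeries κ)[X]) :
    (A.map (psi κ) + C PowerSeries.X * B.map (psi κ)) *
      (A.map (psi κ) + C PowerSeries.X * B.map (psi κ)).map (PowerSeries.evalNegHom (A := κ)) =
      (A ^ 2 - C PowerSeries.X * B ^ 2).map (psi κ) := by
  have hcomp : (PowerSeries.evalNegHom (A := κ)).comp (psi κ) = psi κ :=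
    RingHom.ext fun p => evalNeg_psi κ p
  rw [Polynomial.map_add, Polynomial.map_mul, Polynomial.map_map, Polynomial.map_map, hcomp,
    Polynomial.map_C, PowerSeries.evalNegHom_X, Polynomial.map_sub, Polynomial.map_mul,
    Polynomial.map_pow, Polynomial.map_pow, Polynomial.map_C, psi_X, C_neg, C_pow]
  ring

end MP4369f4
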