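import Pool.Agent.Lib_MP_4369f4_top.Defs

/-! H27 F: PolTop is first-order (compare FoPol.lean of H22). -/

namespace MP4369f4

private theorem fotop_J1 {α : Type} (m : ℕ) {t : ℕ → ∀ (K : Type) [Field K], (α → K) → K}
    {x w : ∀ (K : Type) [Field K], (α → K) → K} (ht : ∀ i, TmA α (t i)) (hx : TmA α x)
    (hw : TmA α w) :
    FoA α (fun K _ v => J1 m (fun i => t i K v) (x K v) (w K v)) := by
  refine FoA.ex (R := fun K _ v h => InK (m + 2) (fun i => t i K v) h ∧
    ¬ Nrm (t (m + 1) K v) h ∧
    Rep 2 (Qd (t (m + 1) K v) h) (1 + x K v * w K v ^ 2)) ?_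
  refine (FoA.inK (m + 2) (fun n => (ht n).lift) (TmA.var none)).and
    ((FoA.nrm (ht (m + 1)).lift (TmA.var none)).not.and ?_)
  have hd : ∀ i : ℕ, TmA (Option α) (fun K _ v =>
      if i = 0 then t (m + 1) K (fun a => v (some a)) else v none) := by
    intro i
    by_cases hi : i = 0
    · simp only [hi, if_true]
      exact (ht (m + 1)).lift
    · simp only [hi, if_false]
      exact TmA.var none
  exact FoA.rep 2 (d := fun i K _ v =>
    if i = 0 then t (m + 1) K (fun a => v (some a)) else v none) hd
    (TmA.one.add (hx.lift.mul (hw.lift.pow 2)))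

private theorem fotop_J2 {α : Type} (m : ℕ) {t : ℕ → ∀ (K : Type) [Field K], (α → K) → K}
    {x g : ∀ (K : Type) [Field K], (α → K) → K} (ht : ∀ i, TmA α (t i)) (hx : TmA α x)
    (hg : TmA α g) :
    FoA α (fun K _ v => J2 m (fun i => t i K v) (x K v) (g K v)) := by
  refine FoA.ex (R := fun K _ v l => ∃ w1 w2, InK (m + 2) (fun i => t i K v) l ∧ l ≠ 0 ∧
    J1 m (fun i => t i K v) (x K v) w1 ∧ J1 m (fun i => t i K v) (x K v) w2 ∧
    l * g K v = w1 + w2) ?_
  refine FoA.ex (R := fun K _ w w1 => ∃ w2,
    InK (m + 2) (fun i => t i K (fun a => w (some a))) (w none) ∧ w none ≠ 0 ∧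
    J1 m (fun i => t i K (fun a => w (some a))) (x K (fun a => w (some a))) w1 ∧
    J1 m (fun i => t i K (fun a => w (some a))) (x K (fun a => w (some a))) w2 ∧
    w none * g K (fun a => w (some a)) = w1 + w2) ?_
  refine FoA.ex (R := fun K _ w w2 =>
    InK (m + 2) (fun i => t i K (fun a => w (some (some a)))) (w (some none)) ∧
    w (some none) ≠ 0 ∧
    J1 m (fun i => t i K (fun a => w (some (some a)))) (x K (fun a => w (some (some a))))
      (w none) ∧
    J1 m (fun i => t i K (fun a => w (some (some a)))) (x K (fun a => w (some (some a)))) w2 ∧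
    w (some none) * g K (fun a => w (some (some a))) = w none + w2) ?_
  exact (FoA.inK (m + 2) (fun n => (ht n).lift.lift.lift) (TmA.var (some (some none)))).and
    ((FoA.eq (TmA.var (some (some none))) TmA.zero).not.and
    ((fotop_J1 m (fun n => (ht n).lift.lift.lift) hx.lift.lift.lift
      (TmA.var (some none))).and
    ((fotop_J1 m (fun n => (ht n).lift.lift.lift) hx.lift.lift.lift (TmA.var none)).and
    (FoA.eq ((TmA.var (some (some none))).mul hg.lift.lift.lift)
      ((TmA.var (some none)).add (TmA.var none))))))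

private theorem fotop_J3 {α : Type} (m : ℕ) {t : ℕ → ∀ (K : Type) [Field K], (α → K) → K}
    {x u : ∀ (K : Type) [Field K], (α → K) → K} (ht : ∀ i, TmA α (t i)) (hx : TmA α x)
    (hu : TmA α u) :
    FoA α (fun K _ v => J3 m (fun i => t i K v) (x K v) (u K v)) := by
  refine FoA.ex (R := fun K _ v j1 => ∃ j2, J2 m (fun i => t i K v) (x K v) j1 ∧
    J2 m (fun i => t i K v) (x K v) j2 ∧ u K v * (1 + x K v * j2) = j1) ?_
  refine FoA.ex (R := fun K _ w j2 =>
    J2 m (fun i => t i K (fun a => w (some a))) (x K (fun a => w (some a))) (w none) ∧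
    J2 m (fun i => t i K (fun a => w (some a))) (x K (fun a => w (some a))) j2 ∧
    u K (fun a => w (some a)) * (1 + x K (fun a => w (some a)) * j2) = w none) ?_
  exact (fotop_J2 m (fun n => (ht n).lift.lift) hx.lift.lift (TmA.var (some none))).and
    ((fotop_J2 m (fun n => (ht n).lift.lift) hx.lift.lift (TmA.var none)).and
    (FoA.eq (hu.lift.lift.mul (TmA.one.add (hx.lift.lift.mul (TmA.var none))))
      (TmA.var (some none))))

/-- `FoA.rep` with the sequence of terms s, h, h, ...; `FoA.inK`, `FoA.nrm`, `FoA.polD`, `FoA.cst`, `FoA.ex`,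
`FoA.all`, `FoA.and`, `FoA.not`, `FoA.imp`, `FoA.eq`; first J1, then J2, J3 (private theorems). -/
theorem FoA.polTop {α : Type} (m : ℕ) {t : ℕ → ∀ (K : Type) [Field K], (α → K) → K}
    {x : ∀ (K : Type) [Field K], (α → K) → K} (ht : ∀ i, TmA α (t i)) (hx : TmA α x) :
    FoA α (fun K _ v => PolTop m (fun i => t i K v) (x K v)) := by
  refine FoA.all (R := fun K _ v c => Cst c → ∃ r u, PolD (m + 1) (fun i => t i K v) r ∧
    J3 m (fun i => t i K v) (t (m + 2) K v - c) u ∧
    x K v = r + (t (m + 2) K v - c) * u) ?_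
  refine (FoA.cst (TmA.var none)).imp ?_
  refine FoA.ex (R := fun K _ w r => ∃ u,
    PolD (m + 1) (fun i => t i K (fun a => w (some a))) r ∧
    J3 m (fun i => t i K (fun a => w (some a)))
      (t (m + 2) K (fun a => w (some a)) - w none) u ∧
    x K (fun a => w (some a)) = r + (t (m + 2) K (fun a => w (some a)) - w none) * u) ?_
  refine FoA.ex (R := fun K _ w u =>
    PolD (m + 1) (fun i => t i K (fun a => w (some (some a)))) (w none) ∧
    J3 m (fun i => t i K (fun a => w (some (some a))))
      (t (m + 2) K (fun a => w (some (some a))) - w (some none)) u ∧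
    x K (fun a => w (some (some a))) = w none +
      (t (m + 2) K (fun a => w (some (some a))) - w (some none)) * u) ?_
  exact (FoA.polD (m + 1) (fun n => (ht n).lift.lift.lift) (TmA.var (some none))).and
    ((fotop_J3 m (fun n => (ht n).lift.lift.lift)
      ((ht (m + 2)).lift.lift.lift.sub (TmA.var (some (some none)))) (TmA.var none)).and
    (FoA.eq hx.lift.lift.lift ((TmA.var (some none)).add
      (((ht (m + 2)).lift.lift.lift.sub (TmA.var (some (some none)))).mul (TmA.var none)))))

end MP4369f4
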