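import Pool.Agent.Lib_MP_4369f4_top.EvenOdd

/-! H27 R4: the coefficients are algebraic over κ[s]. -/

namespace MP4369f4

open Polynomial

private theorem integral_coeff_field {R K : Type*} [CommRing R] [Field K] (e : R →+* K) {G : R[X]}
    (hG : G.Monic) {g : K[X]} (hg : g.Monic) (hd : g ∣ G.map e) (n : ℕ) :
    e.IsIntegralElem (g.coeff n) := by
  letI := e.toAlgebra
  have h1 := integralClosure.mem_lifts_of_monic_of_dvd_map K hG hg hd
  rw [lifts_iff_coeff_lifts] at h1
  obtain ⟨y, hy⟩ := h1 n
  rw [← hy]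
  exact y.2

private theorem integral_coeff_domain {R S : Type*} [CommRing R] [CommRing S] [IsDomain S]
    (e : R →+* S) {G : R[X]} (hG : G.Monic) {g : S[X]} (hg : g.Monic) (hd : g ∣ G.map e) (n : ℕ) :
    e.IsIntegralElem (g.coeff n) := by
  have hinj : Function.Injective (algebraMap S (FractionRing S)) :=
    IsFractionRing.injective S (FractionRing S)
  have h1 := integral_coeff_field ((algebraMap S (FractionRing S)).comp e) hG
    (hg.map (algebraMap S (FractionRing S))) (by
      rw [← Polynomial.map_map]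
      exact Polynomial.map_dvd _ hd) n
  obtain ⟨q, hq, h2⟩ := h1
  refine ⟨q, hq, hinj ?_⟩
  rw [Polynomial.hom_eval₂, map_zero]
  rwa [Polynomial.coeff_map] at h2

private theorem integral_of_psi {κ : Type} [Field κ] {y : PowerSeries κ}
    (h : ((psi κ).comp (algebraMap κ[X] (PowerSeries κ))).IsIntegralElem (psi κ y)) :
    IsIntegral κ[X] y := by
  obtain ⟨q, hq, h2⟩ := h
  refine ⟨q, hq, psi_injective κ ?_⟩
  rw [Polynomial.hom_eval₂, map_zero]
  exact h2

/-- Let e : κ[X] ->+* PowerSeries κ be the composite ψ ∘ (coercion) (s -> S^2) and M = LaurentSeries κ, an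
algebra over κ[X] by e (local instance). f.map (to M) is monic and divides (G.map e).map, G monic, so its
coefficients are integral over κ[X] (`integralClosure.mem_lifts_of_monic_of_dvd_map`). The same holds for
f.map iota (iota fixes the image of e, and also f.map iota divides), so for the coefficient number n: f_n = ψ(A_n) + S ψ(B_n),
iota f_n = ψ(A_n) - S ψ(B_n), ψ(A_n) = (f_n + iota f_n)/2 and S ψ(B_n) are integral over κ[X] via e, S is integral
(S^2 = e(X)), so S^2 ψ(B_n) = ψ(s B_n) is integral. If q(ψ(x)) = 0 for a monic q over κ[X] mapped by e then q(x) = 0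
with q mapped by the coercion (ψ injective). So A_n and s B_n are integral over κ[X], B_n is algebraic. -/
theorem isAlgebraic_coeffs {κ : Type} [Field κ] [CharZero κ] (G : κ[X][X]) (hG : G.Monic)
    (A B : (PowerSeries κ)[X])
    (hf : (A.map (psi κ) + C PowerSeries.X * B.map (psi κ)).Monic)
    (h : (A.map (psi κ) + C PowerSeries.X * B.map (psi κ)) ∣
      (G.map (algebraMap κ[X] (PowerSeries κ))).map (psi κ)) (n : ℕ) :
    IsAlgebraic κ[X] (A.coeff n) ∧ IsAlgebraic κ[X] (B.coeff n) := by
  set e : κ[X] →+* PowerSeries κ := (psi κ).comp (algebraMap κ[X] (PowerSeries κ)) with he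
  rw [Polynomial.map_map, ← he] at h
  have h1 : e.IsIntegralElem (psi κ (A.coeff n) + PowerSeries.X * psi κ (B.coeff n)) := by
    have h2 := integral_coeff_domain e hG hf h n
    rwa [Polynomial.coeff_add, Polynomial.coeff_C_mul, Polynomial.coeff_map,
      Polynomial.coeff_map] at h2
  have h2 : e.IsIntegralElem (psi κ (A.coeff n) - PowerSeries.X * psi κ (B.coeff n)) := by
    obtain ⟨q, hq, h3⟩ := h1
    refine ⟨q, hq, ?_⟩
    have h4 := congrArg (PowerSeries.evalNegHom (A := κ)) h3
    rw [Polynomial.hom_eval₂, map_zero] at h4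
    have h5 : (PowerSeries.evalNegHom (A := κ)).comp e = e := by
      ext x
      · simp [he, evalNeg_psi]
      · simp [he, evalNeg_psi]
    rw [h5, map_add, map_mul, evalNeg_psi, evalNeg_psi, PowerSeries.evalNegHom_X] at h4
    rw [← h4]
    congr 1
    ring
  have hX : e.IsIntegralElem (PowerSeries.X : PowerSeries κ) := by
    refine ⟨X ^ 2 - C X, monic_X_pow_sub_C _ two_ne_zero, ?_⟩
    have h7 : algebraMap κ[X] (PowerSeries κ) X = PowerSeries.X := by
      simp [PowerSeries.algebraMap_apply']
    simp [he, h7, psi_X]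
  have h3 : e.IsIntegralElem (psi κ (2 * A.coeff n)) := by
    have h4 := RingHom.IsIntegralElem.add e h1 h2
    have h5 : psi κ (2 * A.coeff n) = psi κ (A.coeff n) + PowerSeries.X * psi κ (B.coeff n) +
        (psi κ (A.coeff n) - PowerSeries.X * psi κ (B.coeff n)) := by
      rw [map_mul, map_ofNat]
      ring
    rwa [h5]
  have h4 : e.IsIntegralElem (psi κ (2 * (PowerSeries.X * B.coeff n))) := by
    have h5 := RingHom.IsIntegralElem.mul e hX (RingHom.IsIntegralElem.sub e h1 h2)
    have h6 : psi κ (2 * (PowerSeries.X * B.coeff n)) = PowerSeries.X *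
        (psi κ (A.coeff n) + PowerSeries.X * psi κ (B.coeff n) -
        (psi κ (A.coeff n) - PowerSeries.X * psi κ (B.coeff n))) := by
      rw [map_mul, map_mul, map_ofNat, psi_X]
      ring
    rwa [h6]
  have h5 : ∀ y : PowerSeries κ, IsIntegral κ[X] (2 * y) → IsAlgebraic κ[X] y := by
    intro y hy
    have h6 : y = algebraMap κ[X] (PowerSeries κ) (C (2⁻¹ : κ)) * (2 * y) := by
      have h7 : algebraMap κ[X] (PowerSeries κ) (C (2⁻¹ : κ)) = PowerSeries.C (2⁻¹ : κ) := by
        simp [PowerSeries.algebraMap_apply']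
      have h8 : PowerSeries.C (2⁻¹ : κ) * 2 = 1 := by
        rw [show (2 : PowerSeries κ) = PowerSeries.C (2 : κ) from (map_ofNat _ 2).symm, ← map_mul,
          inv_mul_cancel₀ two_ne_zero, map_one]
      rw [h7, ← mul_assoc, h8, one_mul]
    rw [h6]
    exact (isIntegral_algebraMap.mul hy).isAlgebraic
  refine ⟨h5 _ (integral_of_psi h3), ?_⟩
  have h6 := h5 _ (integral_of_psi h4)
  refine IsAlgebraic.of_aeval (C X * X : κ[X][X]) ?_ ?_ ?_
  · rw [natDegree_C_mul_X _ X_ne_zero]
    exact one_ne_zero
  · rw [leadingCoeff_C_mul_X]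
    exact mem_nonZeroDivisors_of_ne_zero X_ne_zero
  · rw [map_mul, aeval_C, aeval_X]
    have h7 : algebraMap κ[X] (PowerSeries κ) X = PowerSeries.X := by
      simp [PowerSeries.algebraMap_apply']
    rwa [h7]

end MP4369f4
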