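import Pool.Agent.Lib_MP_4369f4_top.Two

/-! H27 P2: over a field which contains k(X) and a root of the minimal polynomial of θ the identity
G = U^2 - s V^2 holds, so <1, -s, -G, s G> is isotropic. -/

namespace MP4369f4

open Polynomial

/-- D := U^2 - C (C s) V^2 - G.map C in k[X][X] is mapped to 0 by the map of the inner variable to θ, so every
coefficient of D is divisible by pi = minpoly k θ (`minpoly.dvd`). Let L = AdjoinRoot p, y = AdjoinRoot.root p,
σ : k[X] ->+* L, σ = eval₂ ((AdjoinRoot.of p).comp RatFunc.C) y; σ(pi) = 0 because p divides pi.map RatFunc.C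
(`AdjoinRoot.eval₂_root`). So D.map σ = 0; evaluate the outer variable at ξ = AdjoinRoot.of p RatFunc.X:
(U.map σ)(ξ)^2 - (of p (C s)) (V.map σ)(ξ)^2 = (image of G in L). Now `not_aniso_of_nrm` and
(fun j => of p (Qd a b j)) = Qd (of p a) (of p b). -/
theorem not_aniso_of_prim {k E : Type} [Field k] [Field E] [Algebra k E] (θ : E)
    (s : k) (G : k[X]) (U V : k[X][X])
    (h : (U.map ((aeval θ : k[X] →ₐ[k] E) : k[X] →+* E)) ^ 2 - C (algebraMap k E s) *
      (V.map ((aeval θ : k[X] →ₐ[k] E) : k[X] →+* E)) ^ 2 = G.map (algebraMap k E))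
    (p : (RatFunc k)[X]) (hp : Fact (Irreducible p))
    (hd : p ∣ (minpoly k θ).map (RatFunc.C : k →+* RatFunc k)) :
    ¬ Aniso 2 (fun j => AdjoinRoot.of p
      (Qd (RatFunc.C s : RatFunc k) (algebraMap k[X] (RatFunc k) G) j)) := by
  -- the coefficients of the difference are divisible by the minimal polynomial
  obtain ⟨D, hD⟩ : ∃ D : k[X][X], D = U ^ 2 - C (C s) * V ^ 2 - G.map (C : k →+* k[X]) := ⟨_, rfl⟩
  have hD0 : D.map ((aeval θ : k[X] →ₐ[k] E) : k[X] →+* E) = 0 := by
    rw [hD, Polynomial.map_sub, Polynomial.map_sub, Polynomial.map_pow, Polynomial.map_mul,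
      Polynomial.map_pow, Polynomial.map_C, Polynomial.map_map]
    have h1 : (((aeval θ : k[X] →ₐ[k] E) : k[X] →+* E)).comp (C : k →+* k[X]) =
        algebraMap k E := by
      ext a
      simp
    have h2 : ((aeval θ : k[X] →ₐ[k] E) : k[X] →+* E) (C s) = algebraMap k E s := by simp
    rw [h1, h2, h, sub_self]
  have hdvd : ∀ n, minpoly k θ ∣ D.coeff n := by
    intro n
    apply minpoly.dvd
    have h1 := congrArg (fun q => q.coeff n) hD0
    simpa [coeff_map] using h1
  -- the map to L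
  obtain ⟨σ, hσ⟩ : ∃ σ : k[X] →+* AdjoinRoot p,
      σ = eval₂RingHom ((AdjoinRoot.of p).comp (RatFunc.C : k →+* RatFunc k)) (AdjoinRoot.root p) :=
    ⟨_, rfl⟩
  have hσC : ∀ a : k, σ (C a) = AdjoinRoot.of p (RatFunc.C a) := by
    intro a
    rw [hσ, coe_eval₂RingHom, eval₂_C]
    rfl
  have hσ0 : σ (minpoly k θ) = 0 := by
    rw [hσ, coe_eval₂RingHom, ← eval₂_map]
    obtain ⟨q, hq⟩ := hd
    rw [hq, eval₂_mul, AdjoinRoot.eval₂_root, zero_mul]
  have hDσ : D.map σ = 0 := by
    ext n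
    rw [coeff_map, coeff_zero]
    obtain ⟨q, hq⟩ := hdvd n
    rw [hq, map_mul, hσ0, zero_mul]
  obtain ⟨ξ, hξ⟩ : ∃ ξ : AdjoinRoot p, ξ = AdjoinRoot.of p RatFunc.X := ⟨_, rfl⟩
  have hev := congrArg (eval ξ) hDσ
  have hG : eval ξ ((G.map (C : k →+* k[X])).map σ) =
      AdjoinRoot.of p (algebraMap k[X] (RatFunc k) G) := by
    rw [Polynomial.map_map, eval_map]
    have h1 : σ.comp (C : k →+* k[X]) = (AdjoinRoot.of p).comp (RatFunc.C : k →+* RatFunc k) := by
      ext a
      exact hσC a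
    rw [h1, hξ, ← hom_eval₂]
    congr 1
    have h2 : (algebraMap k[X] (RatFunc k)) G = eval₂ (RatFunc.C : k →+* RatFunc k) RatFunc.X G := by
      conv_lhs => rw [← eval₂_C_X (p := G)]
      rw [hom_eval₂, RatFunc.algebraMap_X]
      congr 1
    exact h2.symm
  have hn : Nrm (AdjoinRoot.of p (RatFunc.C s))
      (AdjoinRoot.of p (algebraMap k[X] (RatFunc k) G)) := by
    refine ⟨eval ξ (U.map σ), eval ξ (V.map σ), ?_⟩
    rw [hD, Polynomial.map_sub, Polynomial.map_sub, Polynomial.map_pow, Polynomial.map_mul,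
      Polynomial.map_pow, Polynomial.map_C, eval_sub, eval_sub, eval_pow, eval_mul, eval_pow,
      eval_C, hσC, hG, eval_zero] at hev
    linear_combination hev
  have hq : (fun j => AdjoinRoot.of p
      (Qd (RatFunc.C s : RatFunc k) (algebraMap k[X] (RatFunc k) G) j)) =
      Qd (AdjoinRoot.of p (RatFunc.C s)) (AdjoinRoot.of p (algebraMap k[X] (RatFunc k) G)) := by
    funext j
    simp only [Qd]
    split_ifs <;> rfl
  rw [hq]
  exact not_aniso_of_nrm hn

end MP4369f4
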