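import Pool.Agent.Lib_MP_4369f4_top.Defs

/-! H27 Z0: the field K = k(X) and the meaning of J1. -/

namespace MP4369f4

open Polynomial

/-- The data of the field K = k(X), k = κ(s): κ of level m + 1, tK the images of t_0, ..., t_m, s, X. -/
structure Top (m : ℕ) (κ : Type) [Field κ] (c0 : ℂ →+* κ) (t0 : ℕ → κ)
    (tK : ℕ → RatFunc (RatFunc κ)) : Prop where
  lv : Lv (m + 1) κ c0 t0
  ht : ∀ i < m + 1, tK i = RatFunc.C (RatFunc.C (t0 i))
  hs : tK (m + 1) = RatFunc.C (RatFunc.X : RatFunc κ)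
  hX : tK (m + 2) = RatFunc.X

variable {m : ℕ} {κ : Type} [Field κ] {c0 : ℂ →+* κ} {t0 : ℕ → κ}
  {tK : ℕ → RatFunc (RatFunc κ)}

/-- `Lv.inK_iff` for the field RatFunc κ of level m + 2 and the tower RatFunc (RatFunc κ)
(compare `Amb.inK_iff'`). -/
theorem Top.inK_iff (A : Top m κ c0 t0 tK) (x : RatFunc (RatFunc κ)) :
    InK (m + 2) tK x ↔ ∃ y : RatFunc κ, x = RatFunc.C y := by
  have h : Lv (m + 1 + 1) (RatFunc κ) ((RatFunc.C : κ →+* RatFunc κ).comp c0)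
      (fun i => if i < m + 1 then RatFunc.C (t0 i) else RatFunc.X) := by
    refine Lv.succ (m + 1) κ c0 t0 _ A.lv ?_ ?_
    · intro i hi
      exact if_pos hi
    · exact if_neg (lt_irrefl _)
  have hT : Tw (RatFunc κ) (RatFunc (RatFunc κ))
      ((RatFunc.C : RatFunc κ →+* RatFunc (RatFunc κ)).comp (RingHom.id (RatFunc κ))) :=
    Tw.step (RatFunc κ) (RingHom.id _) Tw.base
  refine h.inK_iff hT ?_ x
  intro i hi
  rcases Nat.lt_succ_iff_lt_or_eq.1 hi with h1 | h1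
  · rw [A.ht i h1, if_pos h1]
    rfl
  · rw [h1, A.hs, if_neg (lt_irrefl _)]
    rfl

/-- `Lv.cst_iff` for κ and the tower RatFunc (RatFunc κ) over κ. -/
theorem Top.cst_iff (A : Top m κ c0 t0 tK) (x : RatFunc (RatFunc κ)) :
    Cst x ↔ ∃ z : ℂ, x = RatFunc.C (RatFunc.C (c0 z)) := by
  have hT : Tw κ (RatFunc (RatFunc κ))
      ((RatFunc.C : RatFunc κ →+* RatFunc (RatFunc κ)).comp
        ((RatFunc.C : κ →+* RatFunc κ).comp (RingHom.id κ))) :=
    Tw.step (RatFunc κ) _ (Tw.step κ (RingHom.id _) Tw.base)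
  exact A.lv.cst_iff hT x

/-- `Top.inK_iff`, `nrm_of_nrm_C` and `Nrm.map` (h = 0 is a norm, `Nrm.zero`). -/
theorem Top.j1_iff (A : Top m κ c0 t0 tK) (z : ℂ) (w : RatFunc (RatFunc κ)) :
    J1 m tK (RatFunc.X - RatFunc.C (RatFunc.C (c0 z))) w ↔
      JJ RatFunc.X (RatFunc.C (c0 z)) w := by
  have hF : CharZero κ := A.lv.charZero
  have hF' : CharZero (RatFunc κ) :=
    charZero_of_injective_ringHom ((RatFunc.C : κ →+* RatFunc κ).injective)
  have h2 : (2 : RatFunc κ) ≠ 0 := two_ne_zero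
  have hX : (RatFunc.X : RatFunc κ) ≠ 0 := RatFunc.X_ne_zero
  unfold J1 JJ
  rw [A.hs]
  constructor
  · rintro ⟨h, hK, hn, hr⟩
    obtain ⟨y, rfl⟩ := (A.inK_iff h).1 hK
    exact ⟨y, fun h' => hn (h'.map (RatFunc.C : RatFunc κ →+* RatFunc (RatFunc κ))), hr⟩
  · rintro ⟨h, hn, hr⟩
    have h0 : h ≠ 0 := by
      rintro rfl
      exact hn (Nrm.zero _)
    exact ⟨RatFunc.C h, (A.inK_iff _).2 ⟨h, rfl⟩, fun h' => hn (nrm_of_nrm_C h2 hX h0 h'), hr⟩

end MP4369f4
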