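import Pool.Agent.Lib_MP_4369f4_top.Key2

/-! H27 K1. -/

namespace MP4369f4

open Polynomial

/-- The value 1 + (X - a) w^2 for w = (s^2 P T - s) / T^2. -/
private theorem Key1_val {κ : Type} [Field κ] [CharZero κ] {ω : κ} (hω : ω ^ 2 = -1) {u : κ}
    (hu : ¬ IsSquare u) (B : Finset κ) {a : κ} (ha : a ∉ B)
    (hν : ∀ b ∈ B, ∃ ν : κ, ν ^ 4 * ((derivative (Tp B)).eval b) ^ 4 = -(b - a))
    (P : κ[X][X]) (hP : P.natDegree < B.card) (w : RatFunc (RatFunc κ))
    (hw : w = (RatFunc.C (RatFunc.X : RatFunc κ) ^ 2 *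
        algebraMap (RatFunc κ)[X] (RatFunc (RatFunc κ)) (P.map (algebraMap κ[X] (RatFunc κ))) *
        algebraMap (RatFunc κ)[X] (RatFunc (RatFunc κ)) ((Tp B).map RatFunc.C) -
        RatFunc.C (RatFunc.X : RatFunc κ)) /
      algebraMap (RatFunc κ)[X] (RatFunc (RatFunc κ)) ((Tp B).map RatFunc.C) ^ 2) :
    JJ RatFunc.X (RatFunc.C a) w := by
  obtain ⟨h, hh, hr⟩ := key2 hω hu B ha hν P hP
  refine ⟨h, hh, ?_⟩
  have hT : algebraMap (RatFunc κ)[X] (RatFunc (RatFunc κ)) ((Tp B).map RatFunc.C) ≠ 0 :=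
    RatFunc.algebraMap_ne_zero (((Tp.monic B).map RatFunc.C).ne_zero)
  have h1 := hr.mul_sq
    ((algebraMap (RatFunc κ)[X] (RatFunc (RatFunc κ)) ((Tp B).map RatFunc.C) ^ 2)⁻¹)
  convert h1 using 1
  rw [hw]
  simp only [Gam, map_add, map_mul, map_sub, map_pow, map_one, RatFunc.algebraMap_C,
    RatFunc.algebraMap_X]
  field_simp

/-- Common denominator: δ in κ[X], not 0, P0 in κ[X][X] with P0.map (algebraMap κ[X] (RatFunc κ)) = C δ * P
(`IsLocalization.integerNormalization_spec` as in Place1.lean of H22), natDegree P0 = natDegree P. With s = RatFunc.X,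
T = image of Tp B in K, P0 also for its image in K: l = s^2 δ, w1 = s / T^2, w2 = (s^2 P0 T - s) / T^2, w1 + w2 = s^2 P0 / T.
1 + (X - a) w1^2 = Gam(P = 0) / T^4, 1 + (X - a) w2^2 = Gam(P0) / T^4; `key2` and `Rep.mul_sq` (with 1/T^2). -/
theorem key1 {κ : Type} [Field κ] [CharZero κ] {ω : κ} (hω : ω ^ 2 = -1) {u : κ}
    (hu : ¬ IsSquare u) (B : Finset κ) {a : κ} (ha : a ∉ B)
    (hν : ∀ b ∈ B, ∃ ν : κ, ν ^ 4 * ((derivative (Tp B)).eval b) ^ 4 = -(b - a))
    (P : (RatFunc κ)[X]) (hP : P.natDegree < B.card) :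
    ∃ (l : RatFunc κ) (w1 w2 : RatFunc (RatFunc κ)), l ≠ 0 ∧
      JJ RatFunc.X (RatFunc.C a) w1 ∧ JJ RatFunc.X (RatFunc.C a) w2 ∧
      RatFunc.C l * (algebraMap (RatFunc κ)[X] (RatFunc (RatFunc κ)) P /
        algebraMap (RatFunc κ)[X] (RatFunc (RatFunc κ)) ((Tp B).map RatFunc.C)) = w1 + w2 := by
  obtain ⟨δ, hδ, hspec⟩ := IsLocalization.integerNormalization_spec (nonZeroDivisors κ[X]) P
  have hsupp := IsLocalization.integerNormalization_support (nonZeroDivisors κ[X]) P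
  set P0 := IsLocalization.integerNormalization (nonZeroDivisors κ[X]) P with hP0
  have hδ0 : δ ≠ 0 := nonZeroDivisors.ne_zero hδ
  have hdeg : P0.natDegree < B.card := by
    refine lt_of_le_of_lt ?_ hP
    refine natDegree_le_iff_coeff_eq_zero.2 (fun N hN => ?_)
    by_contra hne
    exact (mem_support_iff.1 (hsupp (mem_support_iff.2 hne))) (coeff_eq_zero_of_natDegree_lt hN)
  have hB : (0 : κ[X][X]).natDegree < B.card := by
    rw [natDegree_zero]
    exact lt_of_le_of_lt (Nat.zero_le _) hP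
  have hT : algebraMap (RatFunc κ)[X] (RatFunc (RatFunc κ)) ((Tp B).map RatFunc.C) ≠ 0 :=
    RatFunc.algebraMap_ne_zero (((Tp.monic B).map RatFunc.C).ne_zero)
  have hspec2 : algebraMap (RatFunc κ)[X] (RatFunc (RatFunc κ))
      (P0.map (algebraMap κ[X] (RatFunc κ))) =
      RatFunc.C (algebraMap κ[X] (RatFunc κ) δ) *
        algebraMap (RatFunc κ)[X] (RatFunc (RatFunc κ)) P := by
    rw [hspec, ← RatFunc.algebraMap_C, ← map_mul]
    congr 1
    rw [Algebra.smul_def, Polynomial.algebraMap_apply]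
  refine ⟨RatFunc.X ^ 2 * algebraMap κ[X] (RatFunc κ) δ,
    -((RatFunc.C (RatFunc.X : RatFunc κ) ^ 2 *
        algebraMap (RatFunc κ)[X] (RatFunc (RatFunc κ))
          ((0 : κ[X][X]).map (algebraMap κ[X] (RatFunc κ))) *
        algebraMap (RatFunc κ)[X] (RatFunc (RatFunc κ)) ((Tp B).map RatFunc.C) -
        RatFunc.C (RatFunc.X : RatFunc κ)) /
      algebraMap (RatFunc κ)[X] (RatFunc (RatFunc κ)) ((Tp B).map RatFunc.C) ^ 2),
    _, mul_ne_zero (pow_ne_zero _ RatFunc.X_ne_zero) (RatFunc.algebraMap_ne_zero hδ0), ?_,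
    Key1_val hω hu B ha hν P0 hdeg _ rfl, ?_⟩
  · obtain ⟨h, hh, hr⟩ := Key1_val hω hu B ha hν 0 hB _ rfl
    refine ⟨h, hh, ?_⟩
    rw [neg_sq]
    exact hr
  · rw [hspec2, Polynomial.map_zero, map_zero, map_mul, map_pow]
    field_simp
    ring

end MP4369f4
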