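import Pool.Agent.Lib_MP_4369f4_top.GamMonic

/-! H27 K0: every regular element is j1 / (1 + x j2) with j1, j2 = polynomial / T, T with constant roots. -/

namespace MP4369f4

open Polynomial

/-- Let α = c z, q = Q(α), not 0. Take B in ℂ finite with z not in B, card B > natDegree P, card B >= natDegree Q,
card B >= 1; T = Tp (B.map c), monic of degree card B =: N, T(α) not 0 =: τ. Q/q - T/τ vanishes at α, so it
is (X - α) R with natDegree R < N (R = 0 or degree at most max(N, deg Q) - 1). P2 = C τ * R, P1 = C (τ/q) * P: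
1 + (X - α) P2/T = 1 + (τ/T)(Q/q - T/τ) = (τ/T)(Q/q). -/
theorem exists_j {k : Type} [Field k] [CharZero k] (c : ℂ →+* k) (z : ℂ) (P Q : k[X])
    (hQ : Q.eval (c z) ≠ 0) :
    ∃ (B : Finset ℂ) (P1 P2 : k[X]), z ∉ B ∧ P1.natDegree < B.card ∧ P2.natDegree < B.card ∧
      (algebraMap k[X] (RatFunc k) P / algebraMap k[X] (RatFunc k) Q) *
        (1 + (RatFunc.X - RatFunc.C (c z)) * (algebraMap k[X] (RatFunc k) P2 /
          algebraMap k[X] (RatFunc k) (Tp (B.map ⟨c, c.injective⟩)))) =
        algebraMap k[X] (RatFunc k) P1 /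
          algebraMap k[X] (RatFunc k) (Tp (B.map ⟨c, c.injective⟩)) := by
  have hinf : (({z} : Set ℂ)ᶜ).Infinite := (Set.finite_singleton z).infinite_compl
  obtain ⟨B, hBz, hBc⟩ := hinf.exists_subset_card_eq (P.natDegree + Q.natDegree + 1)
  have hz : z ∉ B := fun h => hBz (Finset.mem_coe.2 h) rfl
  set T : k[X] := Tp (B.map ⟨c, c.injective⟩) with hT
  have hTm : T.Monic := Tp.monic _
  have hTd : T.natDegree = B.card := by rw [hT, Tp.natDegree, Finset.card_map]
  set a : k := c z with ha
  set q : k := Q.eval a with hq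
  set τ : k := T.eval a with hτ
  have hτ0 : τ ≠ 0 := by
    rw [hτ, hT, Tp, Polynomial.eval_prod, Finset.prod_ne_zero_iff]
    intro b hb
    obtain ⟨b', hb', rfl⟩ := Finset.mem_map.1 hb
    rw [eval_sub, eval_X, eval_C]
    intro h
    have h2 : c z = c b' := sub_eq_zero.1 h
    exact hz (by rw [c.injective h2]; exact hb')
  have hroot : (C q⁻¹ * Q - C τ⁻¹ * T).eval a = 0 := by
    rw [eval_sub, eval_mul, eval_mul, eval_C, eval_C, ← hq, ← hτ, inv_mul_cancel₀ hQ,
      inv_mul_cancel₀ hτ0, sub_self]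
  obtain ⟨R, hR⟩ := dvd_iff_isRoot.2 hroot
  have hRd : R.natDegree < B.card := by
    by_cases hR0 : R = 0
    · rw [hR0, natDegree_zero, hBc]
      omega
    · have h1 : ((X - C a) * R).natDegree = 1 + R.natDegree := by
        rw [(monic_X_sub_C a).natDegree_mul' hR0, natDegree_X_sub_C]
      have h2 : (C q⁻¹ * Q - C τ⁻¹ * T).natDegree ≤ B.card := by
        refine (natDegree_sub_le _ _).trans (max_le ?_ ?_)
        · refine (natDegree_C_mul_le _ _).trans ?_
          omega
        · exact (natDegree_C_mul_le _ _).trans hTd.le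
      rw [hR, h1] at h2
      omega
  have hQ0 : Q ≠ 0 := by
    intro h
    apply hQ
    rw [hq, h, eval_zero]
  have hQ1 : algebraMap k[X] (RatFunc k) Q ≠ 0 := by
    intro h
    exact hQ0 ((map_eq_zero_iff _ (RatFunc.algebraMap_injective k)).1 h)
  have hT1 : algebraMap k[X] (RatFunc k) T ≠ 0 := by
    intro h
    exact hTm.ne_zero ((map_eq_zero_iff _ (RatFunc.algebraMap_injective k)).1 h)
  refine ⟨B, C (τ / q) * P, C τ * R, hz, ?_, ?_, ?_⟩
  · refine (natDegree_C_mul_le _ _).trans_lt ?_
    omega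
  · exact (natDegree_C_mul_le _ _).trans_lt hRd
  · have hid : P * (T + (X - C a) * (C τ * R)) = (C (τ / q) * P) * Q := by
      have e1 : (X - C a) * (C τ * R) = C τ * ((X - C a) * R) := by ring
      have e2 : C τ * (C q⁻¹ * Q - C τ⁻¹ * T) = C (τ / q) * Q - T := by
        rw [mul_sub, ← mul_assoc, ← mul_assoc, ← C_mul, ← C_mul, mul_inv_cancel₀ hτ0, C_1, one_mul,
          div_eq_mul_inv]
      rw [e1, ← hR, e2]
      ring
    have hid2 := congrArg (algebraMap k[X] (RatFunc k)) hid
    rw [map_mul, map_add, map_mul, map_mul _ (C (τ / q) * P), map_sub, RatFunc.algebraMap_X,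
      RatFunc.algebraMap_C] at hid2
    rw [← hT]
    field_simp
    linear_combination hid2

end MP4369f4
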