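import Pool.Agent.Lib_MP_4369f4_top.Defs

/-! H27 S2: the forms <1, -s, -h, s h>. -/

namespace MP4369f4

open Polynomial

private theorem Two_rep_one_iff {K : Type*} [Field K] {s h x : K} :
    Rep 1 (Qd s h) x ↔ Nrm s x := by
  have h0 : Qd s h 0 = s := if_pos rfl
  constructor
  · rintro ⟨v, w, ⟨p, rfl⟩, ⟨q, rfl⟩, hx⟩
    rw [h0] at hx
    exact ⟨p, q, hx.symm⟩
  · rintro ⟨p, q, hx⟩
    refine ⟨p ^ 2, q ^ 2, ⟨p, rfl⟩, ⟨q, rfl⟩, ?_⟩
    rw [h0]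
    exact hx.symm

/-- Unfold: `Rep 1` of Qd s h are the v with Nrm s v. -/
theorem rep_two_iff {K : Type*} [Field K] {s h x : K} :
    Rep 2 (Qd s h) x ↔ ∃ v w, Nrm s v ∧ Nrm s w ∧ x = v - h * w := by
  have h1 : Qd s h 1 = h := if_neg one_ne_zero
  constructor
  · rintro ⟨v, w, hv, hw, hx⟩
    rw [h1] at hx
    exact ⟨v, w, Two_rep_one_iff.1 hv, Two_rep_one_iff.1 hw, hx⟩
  · rintro ⟨v, w, hv, hw, hx⟩
    refine ⟨v, w, Two_rep_one_iff.2 hv, Two_rep_one_iff.2 hw, ?_⟩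
    rw [h1]
    exact hx

/-- v = h w with w not 0 gives h = v w (1/w)^2, a norm (`Nrm.mul`, `Nrm.mul_sq_iff`). -/
theorem aniso_two {K : Type*} [Field K] {s h : K} (hs : ¬ IsSquare s) (hn : ¬ Nrm s h) :
    Aniso 2 (Qd s h) := by
  have h0 : Qd s h 0 = s := if_pos rfl
  have h1 : Qd s h 1 = h := if_neg one_ne_zero
  refine ⟨⟨trivial, ?_⟩, ?_⟩
  · rintro v w ⟨p, rfl⟩ ⟨q, rfl⟩ hx
    rw [h0] at hx
    by_contra hq
    have hq' : q ≠ 0 := fun h => hq (by rw [h]; ring)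
    refine hs ⟨p / q, ?_⟩
    field_simp
    exact hx.symm
  · intro v w hv hw hx
    have hx' : v = h * w := by
      have h3 : v = Qd s h 1 * w := hx
      rwa [h1] at h3
    by_contra hw0
    apply hn
    have h2 : h = v * w * w⁻¹ ^ 2 := by
      rw [hx']
      field_simp
    rw [h2, Nrm.mul_sq_iff (inv_ne_zero hw0)]
    exact (Two_rep_one_iff.1 hv).mul (Two_rep_one_iff.1 hw)

/-- g - g * 1 = 0 with the values g and 1 of level 1. -/
theorem not_aniso_of_nrm {K : Type*} [Field K] {s g : K} (h : Nrm s g) : ¬ Aniso 2 (Qd s g) := by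
  intro ha
  have h1 : Qd s g 1 = g := if_neg one_ne_zero
  have h2 := ha.2 g 1 (Two_rep_one_iff.2 h) (Two_rep_one_iff.2 (Nrm.one s))
    (by rw [h1, mul_one])
  exact one_ne_zero h2

/-- h = v - g w with norms v, w; w is not 0 (otherwise h = v is a norm); g = v w (1/w)^2 - h w (1/w)^2. -/
theorem rep_swap {K : Type*} [Field K] {s g h : K} (hn : ¬ Nrm s h) (hr : Rep 2 (Qd s g) h) :
    Rep 2 (Qd s h) g := by
  obtain ⟨v, w, hv, hw, hx⟩ := rep_two_iff.1 hr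
  have hw0 : w ≠ 0 := by
    rintro rfl
    apply hn
    rw [hx, mul_zero, sub_zero]
    exact hv
  refine rep_two_iff.2 ⟨v * w * w⁻¹ ^ 2, w * w⁻¹ ^ 2, (hv.mul hw).mul (Nrm.sq s _),
    hw.mul (Nrm.sq s _), ?_⟩
  rw [hx]
  field_simp
  ring

end MP4369f4
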