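import Pool.Agent.Lib_MP_4369f4_top.EvRep
import Pool.Agent.Lib_MP_4369f4_top.Two
import Pool.Agent.Lib_MP_4369f4_m.EvReg

/-! H27 S3: soundness. -/

namespace MP4369f4

open Polynomial

variable {k : Type} [Field k] {a : k}

private theorem regOps_ne {Q : k[X]} (hQ : Q.eval a ≠ 0) : algebraMap k[X] (RatFunc k) Q ≠ 0 :=
  RatFunc.algebraMap_ne_zero (fun h => hQ (by rw [h, eval_zero]))

theorem Reg.add {u v : RatFunc k} (hu : Reg a u) (hv : Reg a v) : Reg a (u + v) := by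
  obtain ⟨P, Q, hQ, rfl⟩ := hu
  obtain ⟨P', Q', hQ', rfl⟩ := hv
  have h1 := regOps_ne hQ
  have h2 := regOps_ne hQ'
  refine ⟨P * Q' + P' * Q, Q * Q', ?_, ?_⟩
  · rw [eval_mul]
    exact mul_ne_zero hQ hQ'
  · rw [map_add, map_mul, map_mul, map_mul]
    field_simp

/-- Divide by the constant l. -/
theorem Reg.of_C_mul {l : k} (hl : l ≠ 0) {g : RatFunc k} (h : Reg a (RatFunc.C l * g)) :
    Reg a g := by
  obtain ⟨P, Q, hQ, h⟩ := h
  have hl' : (RatFunc.C l : RatFunc k) ≠ 0 := by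
    intro h0
    exact hl (RatFunc.C_injective (by rw [h0, map_zero]))
  refine ⟨C l⁻¹ * P, Q, hQ, ?_⟩
  rw [map_mul, RatFunc.algebraMap_C, mul_div_assoc, ← h, ← mul_assoc, ← map_mul,
    inv_mul_cancel₀ hl, map_one, one_mul]

/-- j1 = P1/Q1, j2 = P2/Q2: u = P1 Q2 / (Q1 (Q2 + (X - a) P2)). -/
theorem Reg.of_unit {u j1 j2 : RatFunc k} (h1 : Reg a j1) (h2 : Reg a j2)
    (h : u * (1 + (RatFunc.X - RatFunc.C a) * j2) = j1) : Reg a u := by
  obtain ⟨P1, Q1, hQ1, rfl⟩ := h1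
  obtain ⟨P2, Q2, hQ2, rfl⟩ := h2
  have hev : (Q2 + (X - C a) * P2).eval a ≠ 0 := by
    simpa using hQ2
  have e1 := regOps_ne hQ1
  have e2 := regOps_ne hQ2
  have e3 := regOps_ne hev
  refine ⟨P1 * Q2, Q1 * (Q2 + (X - C a) * P2), ?_, ?_⟩
  · rw [eval_mul]
    exact mul_ne_zero hQ1 hev
  · have hX : (RatFunc.X - RatFunc.C a : RatFunc k) = algebraMap k[X] (RatFunc k) (X - C a) := by
      rw [map_sub, RatFunc.algebraMap_X, RatFunc.algebraMap_C]
    rw [hX] at h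
    rw [map_add, map_mul] at e3
    rw [map_mul, map_mul, map_add, map_mul]
    rw [eq_div_iff (mul_ne_zero e1 e3)]
    field_simp at h
    linear_combination h

/-- `aniso_two` over k, `evOrd_of_rep` (the sequences Qd (C s) (C h) and C ∘ Qd s h agree),
`one_add_lin_mul_sq_ne_zero`, `evOrd_one_add_iff`. -/
theorem JJ.reg {s : k} (hs : ¬ IsSquare s) {w : RatFunc k} (h : JJ s a w) : Reg a w := by
  obtain ⟨h, hn, hr⟩ := h
  have hq : (Qd (RatFunc.C s : RatFunc k) (RatFunc.C h)) =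
      fun j => (RatFunc.C (Qd s h j) : RatFunc k) := by
    funext j
    unfold Qd
    split_ifs <;> rfl
  rw [hq] at hr
  exact (evOrd_one_add_iff w).1
    (evOrd_of_rep (aniso_two hs hn) a (one_add_lin_mul_sq_ne_zero w) hr)

end MP4369f4
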