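import Pool.Agent.Lib_MP_4369f4_top.JBas
import Pool.Agent.Lib_MP_4369f4_top.Key1
import Pool.Agent.Lib_MP_4369f4_top.Red
import Pool.Agent.Lib_MP_4369f4_top.RegOps

/-! H27 Z1: meaning of J2 and J3. -/

namespace MP4369f4

open Polynomial

variable {m : ℕ} {κ : Type} [Field κ] {c0 : ℂ →+* κ} {t0 : ℕ → κ}
  {tK : ℕ → RatFunc (RatFunc κ)}

private theorem JSem_Tp_map {R S : Type} [CommRing R] [CommRing S] (f : R →+* S)
    (hf : Function.Injective f) (B : Finset R) :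
    (Tp B).map f = Tp (B.map ⟨f, hf⟩) := by
  unfold Tp
  rw [Polynomial.map_prod, Finset.prod_map]
  simp

private theorem JSem_deriv_ne {B : Finset ℂ} {b : ℂ} (hb : b ∈ B) :
    (derivative (Tp B)).eval b ≠ 0 := by
  classical
  have h1 : Tp B = Lagrange.nodal B (id : ℂ → ℂ) := by
    unfold Tp Lagrange.nodal
    rfl
  rw [h1]
  have h2 := Lagrange.eval_nodal_derivative_eval_node_eq (v := (id : ℂ → ℂ)) hb
  simp only [id] at h2
  rw [h2, Lagrange.eval_nodal]
  refine Finset.prod_ne_zero_iff.2 fun i hi => ?_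
  rw [sub_ne_zero]
  exact (Finset.ne_of_mem_erase hi).symm

private theorem JSem_X_not_sq (κ : Type) [Field κ] : ¬ IsSquare (RatFunc.X : RatFunc κ) := by
  rintro ⟨r, hr⟩
  have hX : (RatFunc.X : RatFunc κ) ≠ 0 := RatFunc.X_ne_zero
  have hr0 : r ≠ 0 := by
    rintro rfl
    rw [mul_zero] at hr
    exact hX hr
  have h := congrArg RatFunc.intDegree hr
  rw [RatFunc.intDegree_mul hr0 hr0, RatFunc.intDegree_X] at h
  omega

/-- P/T with constant different roots lies in J2. `key1` with ω = c0 I, u = t0 0 - c0 0 (`Lv.prod_not_isSquare` with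
B = {0}), the Finset B.map c0 of κ; hν: the derivative of Tp (B.map c0) at c0 b is c0 of the derivative of Tp B at b,
not 0, and ℂ is algebraically closed (`IsAlgClosed.exists_pow_nat_eq`). Tp of the image of B in RatFunc κ
is (Tp (B.map c0)).map RatFunc.C. -/
theorem Top.j2_of_poly (A : Top m κ c0 t0 tK) (z : ℂ) (B : Finset ℂ) (hz : z ∉ B)
    (P : (RatFunc κ)[X]) (hP : P.natDegree < B.card) :
    J2 m tK (RatFunc.X - RatFunc.C (RatFunc.C (c0 z)))
      (algebraMap (RatFunc κ)[X] (RatFunc (RatFunc κ)) P /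
        algebraMap (RatFunc κ)[X] (RatFunc (RatFunc κ))
          (Tp (B.map ⟨((RatFunc.C : κ →+* RatFunc κ).comp c0),
            ((RatFunc.C : κ →+* RatFunc κ).comp c0).injective⟩))) := by
  classical
  have hcz : CharZero κ := A.lv.charZero
  have hω : (c0 Complex.I) ^ 2 = -1 := by
    rw [← map_pow, Complex.I_sq, map_neg, map_one]
  have hu : ¬ IsSquare (t0 0 - c0 0) := by
    have h := A.lv.prod_not_isSquare (B := {0}) (Finset.singleton_nonempty 0)
    rwa [Finset.prod_singleton] at h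
  have ha : c0 z ∉ B.map ⟨c0, c0.injective⟩ := by
    intro h
    rw [Finset.mem_map] at h
    obtain ⟨b, hb, hbz⟩ := h
    exact hz (c0.injective hbz ▸ hb)
  have hν : ∀ b ∈ B.map ⟨c0, c0.injective⟩,
      ∃ ν : κ, ν ^ 4 * ((derivative (Tp (B.map ⟨c0, c0.injective⟩))).eval b) ^ 4 =
        -(b - c0 z) := by
    intro b hb
    rw [Finset.mem_map] at hb
    obtain ⟨b', hb', rfl⟩ := hb
    have hd := JSem_deriv_ne hb'
    obtain ⟨μ, hμ⟩ := IsAlgClosed.exists_pow_nat_eq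
      (-(b' - z) / ((derivative (Tp B)).eval b') ^ 4) (n := 4) (by norm_num)
    refine ⟨c0 μ, ?_⟩
    have h1 : (derivative (Tp (B.map ⟨c0, c0.injective⟩))).eval
        ((⟨c0, c0.injective⟩ : ℂ ↪ κ) b') = c0 ((derivative (Tp B)).eval b') := by
      rw [← JSem_Tp_map c0 c0.injective, derivative_map]
      exact (Polynomial.eval_map_apply c0 b')
    rw [h1, ← map_pow, ← map_pow, ← map_mul, hμ, div_mul_cancel₀ _ (pow_ne_zero 4 hd), map_neg,
      map_sub]
    rfl
  have hP' : P.natDegree < (B.map ⟨c0, c0.injective⟩).card := by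
    rwa [Finset.card_map]
  obtain ⟨l, w1, w2, hl, h1, h2, h3⟩ := key1 hω hu (B.map ⟨c0, c0.injective⟩) ha hν P hP'
  have hT : (Tp (B.map ⟨c0, c0.injective⟩)).map (RatFunc.C : κ →+* RatFunc κ) =
      Tp (B.map ⟨((RatFunc.C : κ →+* RatFunc κ).comp c0),
            ((RatFunc.C : κ →+* RatFunc κ).comp c0).injective⟩) := by
    rw [JSem_Tp_map _ (RatFunc.C : κ →+* RatFunc κ).injective, Finset.map_map]
    rfl
  rw [hT] at h3
  exact ⟨RatFunc.C l, w1, w2, (A.inK_iff _).2 ⟨l, rfl⟩, (_root_.map_ne_zero _).2 hl,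
    (A.j1_iff z w1).2 h1, (A.j1_iff z w2).2 h2, h3⟩

private theorem JSem_reg (A : Top m κ c0 t0 tK) (z : ℂ) {g : RatFunc (RatFunc κ)}
    (h : J2 m tK (RatFunc.X - RatFunc.C (RatFunc.C (c0 z))) g) : Reg (RatFunc.C (c0 z)) g := by
  obtain ⟨l, w1, w2, hl, hl0, h1, h2, h3⟩ := h
  obtain ⟨y, rfl⟩ := (A.inK_iff _).1 hl
  have hy : y ≠ 0 := by
    rintro rfl
    exact hl0 (map_zero _)
  have hs := JSem_X_not_sq κ
  have r1 := JJ.reg hs ((A.j1_iff z w1).1 h1)
  have r2 := JJ.reg hs ((A.j1_iff z w2).1 h2)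
  have r3 := r1.add r2
  rw [← h3] at r3
  exact Reg.of_C_mul hy r3

/-- ->: `Top.j1_iff`, `Top.inK_iff`, `JJ.reg` (RatFunc.X is not a square), `Reg.add`, `Reg.of_C_mul`, `Reg.of_unit`.
<-: `exists_j` for k = RatFunc κ and `Top.j2_of_poly` twice. -/
theorem Top.j3_iff (A : Top m κ c0 t0 tK) (z : ℂ) (u : RatFunc (RatFunc κ)) :
    J3 m tK (RatFunc.X - RatFunc.C (RatFunc.C (c0 z))) u ↔ Reg (RatFunc.C (c0 z)) u := by
  constructor
  · rintro ⟨j1, j2, h1, h2, h3⟩
    exact Reg.of_unit (JSem_reg A z h1) (JSem_reg A z h2) h3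
  · rintro ⟨P, Q, hQ, rfl⟩
    have hcz : CharZero κ := A.lv.charZero
    have hcz' : CharZero (RatFunc κ) :=
      charZero_of_injective_ringHom (RatFunc.C : κ →+* RatFunc κ).injective
    obtain ⟨B, P1, P2, hz, hP1, hP2, h⟩ :=
      exists_j ((RatFunc.C : κ →+* RatFunc κ).comp c0) z P Q hQ
    exact ⟨_, _, A.j2_of_poly z B hz P1 hP1, A.j2_of_poly z B hz P2 hP2, h⟩

end MP4369f4
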