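import Pool.Agent.Lib_MP_4369f4_top.Diag

/-! H27 N1: the values of a Pfister form are closed under multiplication (Pfister). -/

namespace MP4369f4

/-- Induction on m. m = 0: squares. m + 1: x = v - d w, y = v' - d w' with v, w, v', w' values of level m,
d = d m. If w = 0: x y = v v' - d (v w'). If v = 0: x y = d^2 (w w') - d (w v') (`Rep.mul_sq`). If v and w are
not 0: v'/v = v' v (1/v)^2 and w'/w are values of level m by the induction hypothesis and `Rep.mul_sq`; write
v'/v = q(p), w'/w = q(r) with vectors p, r : PI m -> K, q(p) = sum_i c_i p_i^2 (`rep_iff_pfc`). Then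
(v - d w) (v q(p) - d w q(r)) = q(v p - d w r) - d (v w q(p - r)),
which is checked by expanding the sums (`Finset.mul_sum`, `Finset.sum_sub_distrib`, ring under the sum), and
v w q(p - r) is a value of level m by the induction hypothesis (twice). -/
theorem Rep.mul {K : Type*} [Field K] {m : ℕ} {d : ℕ → K} {x y : K} (hx : Rep m d x)
    (hy : Rep m d y) : Rep m d (x * y) := by
  induction m generalizing x y with
  | zero =>
    obtain ⟨u, rfl⟩ := hx
    obtain ⟨v, rfl⟩ := hy
    exact ⟨u * v, by ring⟩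
  | succ m ih =>
    obtain ⟨v, w, hv, hw, rfl⟩ := hx
    obtain ⟨v', w', hv', hw', rfl⟩ := hy
    by_cases hw0 : w = 0
    · subst hw0
      exact ⟨v * v', v * w', ih hv hv', ih hv hw', by ring⟩
    by_cases hv0 : v = 0
    · subst hv0
      have h1 := (ih hw hw').mul_sq (d m)
      exact ⟨_, w * v', h1, ih hw hv', by ring⟩
    have h1 : Rep m d (v' / v) := by
      have h := (ih hv' hv).mul_sq (1 / v)
      have e : v' / v = v' * v * (1 / v) ^ 2 := by
        field_simp
      rw [e]
      exact h
    have h2 : Rep m d (w' / w) := by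
      have h := (ih hw' hw).mul_sq (1 / w)
      have e : w' / w = w' * w * (1 / w) ^ 2 := by
        field_simp
      rw [e]
      exact h
    obtain ⟨p, hp⟩ := (rep_iff_pfc m d _).1 h1
    obtain ⟨r, hr⟩ := (rep_iff_pfc m d _).1 h2
    rw [div_eq_iff hv0] at hp
    rw [div_eq_iff hw0] at hr
    have h3 : Rep m d (∑ i, pfc m d i * (v * p i - d m * w * r i) ^ 2) :=
      (rep_iff_pfc m d _).2 ⟨fun i => v * p i - d m * w * r i, rfl⟩
    have h4 : Rep m d (∑ i, pfc m d i * (p i - r i) ^ 2) :=
      (rep_iff_pfc m d _).2 ⟨fun i => p i - r i, rfl⟩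
    refine ⟨_, _, h3, ih (ih hv hw) h4, ?_⟩
    have e1 : ∑ i, pfc m d i * (v * p i - d m * w * r i) ^ 2 =
        v ^ 2 * ∑ i, pfc m d i * p i ^ 2 - 2 * v * (d m * w) * ∑ i, pfc m d i * (p i * r i) +
          (d m * w) ^ 2 * ∑ i, pfc m d i * r i ^ 2 := by
      rw [Finset.mul_sum, Finset.mul_sum, Finset.mul_sum, ← Finset.sum_sub_distrib,
        ← Finset.sum_add_distrib]
      refine Finset.sum_congr rfl fun i _ => ?_
      ring
    have e2 : ∑ i, pfc m d i * (p i - r i) ^ 2 =
        ∑ i, pfc m d i * p i ^ 2 - 2 * ∑ i, pfc m d i * (p i * r i) +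
          ∑ i, pfc m d i * r i ^ 2 := by
      rw [Finset.mul_sum, ← Finset.sum_sub_distrib, ← Finset.sum_add_distrib]
      refine Finset.sum_congr rfl fun i _ => ?_
      ring
    rw [e1, e2, hp, hr]
    ring

/-- x / y = x y (1/y)^2, also for y = 0. -/
theorem Rep.div {K : Type*} [Field K] {m : ℕ} {d : ℕ → K} {x y : K} (hx : Rep m d x)
    (hy : Rep m d y) : Rep m d (x / y) := by
  have h := (hx.mul hy).mul_sq (1 / y)
  have e : x / y = x * y * (1 / y) ^ 2 := by
    by_cases h0 : y = 0
    · rw [h0]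
      simp
    · field_simp
  rw [e]
  exact h

end MP4369f4
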