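import Pool.Agent.Lib_MP_4369f4_top.KnebStep
import Pool.Agent.Lib_MP_4369f4_top.MulRep
import Pool.Agent.Lib_MP_4369f4_m.RepDiag

/-! H27 N2b: Knebusch's norm principle. -/

namespace MP4369f4

open Polynomial

/-- Strong induction on natDegree P. If the form is isotropic over F it is isotropic over F(X)
(`Aniso.of_map`) and takes all values (`rep_of_not_aniso`). Let it be anisotropic. P = 1: `Rep.one`.
P not irreducible: P = A B with A, B monic of smaller degree, `Rep.mul` (irreducible factors of A, B divide
P). P irreducible: `kneb_step` gives P1; P1 = C (leadingCoeff P1) * P1' with P1' monic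
(`Polynomial.monic_mul_leadingCoeff_inv` or similar), of the same degree and the same divisors up to constants;
by induction P1' is a value, the constant leadingCoeff P1 is a value (`Rep.map` for RatFunc.C), so P1 is one and
P = (P P1)/P1 (`Rep.div`). -/
theorem rep_of_factors {F : Type} [Field F] (h2 : (2 : F) ≠ 0) {m : ℕ} (d : ℕ → F)
    (hd : ∀ j < m, d j ≠ 0) (P : F[X]) (hP : P.Monic)
    (h : ∀ (p : F[X]) (_ : Fact (Irreducible p)), p ∣ P →
      ¬ Aniso m (fun j => AdjoinRoot.of p (d j))) :
    Rep m (fun j => (RatFunc.C (d j) : RatFunc F)) (algebraMap F[X] (RatFunc F) P) := by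
  by_cases ha : Aniso m d
  · obtain ⟨n, hn⟩ : ∃ n, P.natDegree = n := ⟨_, rfl⟩
    induction n using Nat.strong_induction_on generalizing P with
    | _ n ih =>
      by_cases h1 : P.natDegree = 0
      · have h2 : P = 1 := hP.natDegree_eq_zero.1 h1
        rw [h2, map_one]
        exact Rep.one _ _
      by_cases hirr : Irreducible P
      · have hf : Fact (Irreducible P) := ⟨hirr⟩
        obtain ⟨P1, hP1, hdeg, hlc, hrep, hfac⟩ := kneb_step d ha P hP hf (h P hf dvd_rfl)
        have hlc0 : P1.leadingCoeff ≠ 0 := leadingCoeff_ne_zero.2 hP1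
        obtain ⟨Q, hQe⟩ : ∃ Q, Q = P1 * C P1.leadingCoeff⁻¹ := ⟨_, rfl⟩
        have hQ : Q.Monic := by
          rw [hQe]
          exact monic_mul_leadingCoeff_inv hP1
        have hQP : P1 = Q * C P1.leadingCoeff := by
          rw [hQe, mul_assoc, ← C_mul, inv_mul_cancel₀ hlc0, C_1, mul_one]
        have hQd : Q.natDegree = P1.natDegree := by
          conv_rhs => rw [hQP]
          rw [natDegree_mul_C hlc0]
        have hrQ := ih Q.natDegree (by omega) Q hQ
          (fun p hp hpd => hfac p hp (hpd.trans ⟨_, hQP⟩)) rfl
        have hr1 : Rep m (fun j => (RatFunc.C (d j) : RatFunc F))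
            (algebraMap F[X] (RatFunc F) P1) := by
          rw [hQP, map_mul, RatFunc.algebraMap_C]
          exact hrQ.mul (hlc.map RatFunc.C)
        have hne : algebraMap F[X] (RatFunc F) P1 ≠ 0 := RatFunc.algebraMap_ne_zero hP1
        have he : algebraMap F[X] (RatFunc F) P =
            algebraMap F[X] (RatFunc F) (P * P1) / algebraMap F[X] (RatFunc F) P1 := by
          rw [map_mul, mul_div_assoc, div_self hne, mul_one]
        rw [he]
        exact hrep.div hr1
      · have hne1 : P ≠ 1 := fun h2 => h1 (by rw [h2, natDegree_one])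
        rw [hP.irreducible_iff_natDegree] at hirr
        push Not at hirr
        obtain ⟨A, B, hA, hB, hAB, hA0, hB0⟩ := hirr hne1
        have hdeg : A.natDegree + B.natDegree = P.natDegree := by
          rw [← hAB, hA.natDegree_mul hB]
        have hrA := ih A.natDegree (by omega) A hA
          (fun p hp hpd => h p hp (hpd.trans ⟨_, hAB.symm⟩)) rfl
        have hrB := ih B.natDegree (by omega) B hB
          (fun p hp hpd => h p hp (hpd.trans ⟨_, by rw [mul_comm, hAB]⟩)) rfl
        rw [← hAB, map_mul]
        exact hrA.mul hrB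
  · refine rep_of_not_aniso ?_ _ (fun j hj => ?_) (fun h3 => ha (h3.of_map (RatFunc.C))) _
    · intro h3
      apply h2
      have h4 : (RatFunc.C (2 : F) : RatFunc F) = 0 := by
        rw [map_ofNat]
        exact h3
      exact (map_eq_zero (RatFunc.C : F →+* RatFunc F)).1 h4
    · exact fun h3 => hd j hj ((map_eq_zero (RatFunc.C : F →+* RatFunc F)).1 h3)

end MP4369f4
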