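import Pool.Agent.Lib_MP_4369f4_top.Defs

/-! H27 P1: a primitive element for the coefficients. -/

namespace MP4369f4

open Polynomial

/-- The field generated over k by the finitely many coefficients of U and V inside E is finite over k
(`IntermediateField.finiteDimensional_adjoin`) and separable (char 0); `Field.exists_primitive_element` gives θ; every
element of k(θ) is a polynomial in θ (θ is integral: `IntermediateField.adjoin_simple_toSubalgebra_of_integral`,
`Algebra.adjoin_singleton_eq_range_aeval`). Lift the polynomials U, V coefficientwise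
(`Polynomial.mem_lifts`, `Polynomial.lifts_iff_coeff_lifts`). -/
theorem exists_prim {k E : Type} [Field k] [CharZero k] [Field E] [Algebra k E] (U V : E[X])
    (hU : ∀ n, IsIntegral k (U.coeff n)) (hV : ∀ n, IsIntegral k (V.coeff n)) :
    ∃ θ : E, IsIntegral k θ ∧ ∃ U' V' : k[X][X],
      U = U'.map ((aeval θ : k[X] →ₐ[k] E) : k[X] →+* E) ∧
      V = V'.map ((aeval θ : k[X] →ₐ[k] E) : k[X] →+* E) := by
  classical
  set S : Set E := (((U.support.image U.coeff) ∪ (V.support.image V.coeff) : Finset E) : Set E)
    with hS
  have hfin : Finite S := (Finset.finite_toSet _).to_subtype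
  have hint : ∀ x ∈ S, IsIntegral k x := by
    intro x hx
    rw [hS, Finset.mem_coe, Finset.mem_union, Finset.mem_image, Finset.mem_image] at hx
    rcases hx with ⟨n, _, rfl⟩ | ⟨n, _, rfl⟩
    · exact hU n
    · exact hV n
  have hfd : FiniteDimensional k (IntermediateField.adjoin k S) :=
    IntermediateField.finiteDimensional_adjoin hint
  obtain ⟨α, hα⟩ := Field.exists_primitive_element k (IntermediateField.adjoin k S)
  have hαi : IsIntegral k α := IsIntegral.of_finite k α
  set θ : E := (α : E) with hθ
  have hθi : IsIntegral k θ := hαi.map (IntermediateField.adjoin k S).val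
  have key : ∀ x ∈ IntermediateField.adjoin k S,
      x ∈ Set.range ((aeval θ : k[X] →ₐ[k] E) : k[X] →+* E) := by
    intro x hx
    have h1 : (⟨x, hx⟩ : IntermediateField.adjoin k S) ∈ IntermediateField.adjoin k {α} := by
      rw [hα]
      exact IntermediateField.mem_top
    have h2 : (⟨x, hx⟩ : IntermediateField.adjoin k S) ∈
        (IntermediateField.adjoin k {α}).toSubalgebra := h1
    rw [IntermediateField.adjoin_simple_toSubalgebra_of_isAlgebraic hαi.isAlgebraic,
      Algebra.adjoin_singleton_eq_range_aeval] at h2
    obtain ⟨p, hp⟩ := h2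
    refine ⟨p, ?_⟩
    have h3 := congrArg (IntermediateField.adjoin k S).val hp
    have h4 : aeval θ p = (IntermediateField.adjoin k S).val (aeval α p) :=
      aeval_algHom_apply (IntermediateField.adjoin k S).val α p
    show aeval θ p = x
    rw [h4]
    exact h3
  have hUl : U ∈ lifts ((aeval θ : k[X] →ₐ[k] E) : k[X] →+* E) := by
    rw [lifts_iff_coeff_lifts]
    intro n
    by_cases h0 : U.coeff n = 0
    · exact ⟨0, by rw [h0, map_zero]⟩
    · apply key
      apply IntermediateField.subset_adjoin
      rw [hS, Finset.mem_coe, Finset.mem_union]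
      exact Or.inl (Finset.mem_image.2 ⟨n, mem_support_iff.2 h0, rfl⟩)
  have hVl : V ∈ lifts ((aeval θ : k[X] →ₐ[k] E) : k[X] →+* E) := by
    rw [lifts_iff_coeff_lifts]
    intro n
    by_cases h0 : V.coeff n = 0
    · exact ⟨0, by rw [h0, map_zero]⟩
    · apply key
      apply IntermediateField.subset_adjoin
      rw [hS, Finset.mem_coe, Finset.mem_union]
      exact Or.inr (Finset.mem_image.2 ⟨n, mem_support_iff.2 h0, rfl⟩)
  obtain ⟨U', hU'⟩ := (mem_lifts U).1 hUl
  obtain ⟨V', hV'⟩ := (mem_lifts V).1 hVl
  exact ⟨θ, hθi, U', V', hU'.symm, hV'.symm⟩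

end MP4369f4
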