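import Pool.Agent.Lib_MP_4369f4_top.Defs

/-! H27 N3: specialisation. -/

namespace MP4369f4

open Polynomial

/-- If the form is isotropic over F: `rep_of_not_aniso`. If it is anisotropic: `exists_place` (H22
Place0) for K = L = F, θ = c gives j : F(X) -> F((tau)), j (C a) = C a. Write P = C (P(c)) + (X - C c) * P1. The
image of X - C c is tau g1 (root multiplicity 1) and the image of P1 is tau^a g2 with a natural, or P1 = 0. So
j(P) = ofPowerSeries (C (P(c)) + X * ...) has constant coefficient P(c), not 0. By `Rep.map` and `rep_laurent`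
j(P) = tau^(2 n) g with g(0) a value of the form, and `tau_zpow_eq` gives g(0) = P(c). -/
theorem rep_eval {F : Type} [Field F] (h2 : (2 : F) ≠ 0) {m : ℕ} (d : ℕ → F)
    (hd : ∀ j < m, d j ≠ 0) (P : F[X]) (c : F) (hc : P.eval c ≠ 0)
    (h : Rep m (fun j => (RatFunc.C (d j) : RatFunc F)) (algebraMap F[X] (RatFunc F) P)) :
    Rep m d (P.eval c) := by
  by_cases ha : Aniso m d
  swap
  · exact rep_of_not_aniso h2 d hd ha _
  obtain ⟨j, hjC, hjG⟩ := exists_place (K := F) (L := F) c
  have hmap : ∀ G : F[X], G.map (algebraMap F F) = G := fun G => by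
    rw [Algebra.algebraMap_self, Polynomial.map_id]
  have key : ∀ P1 : F[X], ∃ q : PowerSeries F,
      j (algebraMap F[X] (RatFunc F) ((X - C c) * P1)) =
        HahnSeries.ofPowerSeries ℤ F (PowerSeries.X * q) := by
    intro P1
    by_cases hP1 : P1 = 0
    · refine ⟨0, ?_⟩
      rw [hP1, mul_zero, mul_zero, map_zero, map_zero, map_zero]
    · obtain ⟨g1, -, h1⟩ := hjG (X - C c) (X_sub_C_ne_zero c)
      obtain ⟨g2, -, h3⟩ := hjG P1 hP1
      rw [hmap, Polynomial.rootMultiplicity_X_sub_C_self] at h1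
      rw [hmap, zpow_natCast] at h3
      refine ⟨g1 * (PowerSeries.X ^ P1.rootMultiplicity c * g2), ?_⟩
      rw [map_mul, map_mul, h1, h3, Nat.cast_one, zpow_one, map_mul, map_mul, map_mul, map_pow]
      simp only [tau]
      ring
  have hdec : P = C (P.eval c) + (X - C c) * (P /ₘ (X - C c)) := by
    have h3 := Polynomial.modByMonic_add_div P (X - C c)
    rw [Polynomial.modByMonic_X_sub_C_eq_C_eval] at h3
    exact h3.symm
  obtain ⟨q, hq⟩ := key (P /ₘ (X - C c))
  have hC : j (algebraMap F[X] (RatFunc F) (C (P.eval c))) =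
      HahnSeries.ofPowerSeries ℤ F (PowerSeries.C (P.eval c)) := by
    rw [RatFunc.algebraMap_C, hjC, HahnSeries.ofPowerSeries_C]
    rfl
  have hjP : j (algebraMap F[X] (RatFunc F) P) =
      HahnSeries.ofPowerSeries ℤ F (PowerSeries.C (P.eval c) + PowerSeries.X * q) := by
    conv_lhs => rw [hdec]
    rw [map_add, map_add, hC, hq, map_add]
  have hP0 : P ≠ 0 := by
    rintro rfl
    exact hc Polynomial.eval_zero
  have hf0 : j (algebraMap F[X] (RatFunc F) P) ≠ 0 :=
    (map_ne_zero j).2 (RatFunc.algebraMap_ne_zero hP0)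
  have hrep : Rep m (fun i => (HahnSeries.C (d i) : LaurentSeries F))
      (j (algebraMap F[X] (RatFunc F) P)) := by
    refine (h.map j).congr fun i _ => ?_
    rw [hjC]
    rfl
  obtain ⟨n, g, hg, hr, hgn⟩ := rep_laurent ha hrep hf0
  have hcc : PowerSeries.constantCoeff (PowerSeries.C (P.eval c) + PowerSeries.X * q) =
      P.eval c := by
    rw [map_add, PowerSeries.constantCoeff_C, map_mul, PowerSeries.constantCoeff_X, zero_mul,
      add_zero]
  have h4 : tau F ^ (0 : ℤ) *
      HahnSeries.ofPowerSeries ℤ F (PowerSeries.C (P.eval c) + PowerSeries.X * q) =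
      tau F ^ (2 * n) * HahnSeries.ofPowerSeries ℤ F g := by
    rw [← hgn, zpow_zero, one_mul, hjP]
  have h5 := (tau_zpow_eq (by rwa [hcc]) hg h4).2
  rw [hcc] at h5
  rw [h5]
  exact hr

end MP4369f4
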