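import Pool.Agent.Lib_MP_4369f4_top.AB
import Pool.Agent.Lib_MP_4369f4_top.Prim
import Pool.Agent.Lib_MP_4369f4_top.Iso
import Pool.Agent.Lib_MP_4369f4_top.Kneb
import Pool.Agent.Lib_MP_4369f4_top.Spec
import Pool.Agent.Lib_MP_4369f4_top.Approx

/-! H27 K2. -/

namespace MP4369f4

open Polynomial

/-- k = RatFunc κ, K = RatFunc k, E = LaurentSeries κ with letI := (emb κ).toAlgebra, G the polynomial Gam in k[X].
`exists_AB`, `exists_prim`: θ, U, V; pi = minpoly k θ. `not_aniso_of_prim` for all irreducible p | pi.map RatFunc.C;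
`rep_of_factors` with F = K, d = Qd (C s) G (entries not 0: `Gam.monic`), P = pi.map RatFunc.C; `rep_eval` at RatFunc.C c:
Rep 2 (Qd (C s) G) (RatFunc.C (pi.eval c)) whenever pi.eval c is not 0. `exists_two_values` (pi separable:
`Irreducible.separable`, `Separable.aeval_derivative_ne_zero`): c1, c2, h = pi(c1) pi(c2); `Rep.mul`; `rep_swap`
with not Nrm (C s) (C h) (`nrm_of_nrm_C`, h not 0). -/
theorem key2 {κ : Type} [Field κ] [CharZero κ] {ω : κ} (hω : ω ^ 2 = -1) {u : κ}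
    (hu : ¬ IsSquare u) (B : Finset κ) {a : κ} (ha : a ∉ B)
    (hν : ∀ b ∈ B, ∃ ν : κ, ν ^ 4 * ((derivative (Tp B)).eval b) ^ 4 = -(b - a))
    (P : κ[X][X]) (hP : P.natDegree < B.card) :
    ∃ h : RatFunc κ, ¬ Nrm RatFunc.X h ∧
      Rep 2 (Qd (RatFunc.C RatFunc.X : RatFunc (RatFunc κ)) (RatFunc.C h))
        (algebraMap (RatFunc κ)[X] (RatFunc (RatFunc κ))
          (Gam RatFunc.X (RatFunc.C a) ((Tp B).map RatFunc.C)
            (P.map (algebraMap κ[X] (RatFunc κ))))) := by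
  classical
  let instA : Algebra (RatFunc κ) (LaurentSeries κ) := (emb κ).toAlgebra
  have halg : algebraMap (RatFunc κ) (LaurentSeries κ) = emb κ := rfl
  have h2k : (2 : RatFunc κ) ≠ 0 := by
    intro h
    have h1 : (RatFunc.C (2 : κ) : RatFunc κ) = 0 := by
      rw [map_ofNat]
      exact h
    exact two_ne_zero ((map_eq_zero (RatFunc.C : κ →+* RatFunc κ)).1 h1)
  have h2K : (2 : RatFunc (RatFunc κ)) ≠ 0 := by
    intro h
    have h1 : (RatFunc.C (2 : RatFunc κ) : RatFunc (RatFunc κ)) = 0 := by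
      rw [map_ofNat]
      exact h
    exact h2k ((map_eq_zero (RatFunc.C : RatFunc κ →+* RatFunc (RatFunc κ))).1 h1)
  have hchar : CharZero (RatFunc κ) :=
    charZero_of_injective_algebraMap (R := κ) (A := RatFunc κ) (algebraMap κ (RatFunc κ)).injective
  obtain ⟨G, hG⟩ : ∃ G : (RatFunc κ)[X], G = Gam RatFunc.X (RatFunc.C a) ((Tp B).map RatFunc.C)
    (P.map (algebraMap κ[X] (RatFunc κ))) := ⟨_, rfl⟩
  rw [← hG]
  have hG0 : G ≠ 0 := by
    have hm : ((Tp B).map (RatFunc.C : κ →+* RatFunc κ)).Monic := (Tp.monic B).map _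
    have hd : (P.map (algebraMap κ[X] (RatFunc κ))).natDegree <
        ((Tp B).map (RatFunc.C : κ →+* RatFunc κ)).natDegree := by
      rw [(Tp.monic B).natDegree_map, Tp.natDegree]
      exact lt_of_le_of_lt natDegree_map_le hP
    rw [hG]
    exact (Gam.monic _ _ hm hd).1.ne_zero
  obtain ⟨U, V, hU, hV, hUV⟩ := exists_AB hω B ha hν P hP
  obtain ⟨θ, hθ, U', V', hU', hV'⟩ := exists_prim (k := RatFunc κ) (E := LaurentSeries κ) U V hU hV
  obtain ⟨p0, hp0⟩ : ∃ p0 : (RatFunc κ)[X], p0 = minpoly (RatFunc κ) θ := ⟨_, rfl⟩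
  have hmon : p0.Monic := by rw [hp0]; exact minpoly.monic hθ
  have hirr : Irreducible p0 := by rw [hp0]; exact minpoly.irreducible hθ
  have hsep : p0.Separable := hirr.separable
  have hroot : (p0.map (emb κ)).eval θ = 0 := by
    have h1 := minpoly.aeval (RatFunc κ) θ
    rw [← hp0, aeval_def, halg] at h1
    rw [eval_map]
    exact h1
  have hder : (derivative (p0.map (emb κ))).eval θ ≠ 0 := by
    have h1 : aeval θ p0 = 0 := by rw [hp0]; exact minpoly.aeval _ θ
    have h2 := hsep.aeval_derivative_ne_zero h1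
    rw [derivative_map, eval_map]
    exact h2
  obtain ⟨c1, c2, hc1, hc2, hn⟩ := exists_two_values hu θ p0 hroot hder
  have hid := hUV
  rw [hU', hV', ← hG] at hid
  obtain ⟨d, hd⟩ : ∃ d : ℕ → RatFunc (RatFunc κ),
    d = Qd (RatFunc.C RatFunc.X : RatFunc (RatFunc κ))
        (algebraMap (RatFunc κ)[X] (RatFunc (RatFunc κ)) G) := ⟨_, rfl⟩
  have hd0 : ∀ j < 2, d j ≠ 0 := by
    intro j _
    rw [hd]
    by_cases hj : j = 0
    · have h1 : Qd (RatFunc.C RatFunc.X : RatFunc (RatFunc κ))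
        (algebraMap (RatFunc κ)[X] (RatFunc (RatFunc κ)) G) j =
          (RatFunc.C RatFunc.X : RatFunc (RatFunc κ)) := if_pos hj
      rw [h1]
      exact (_root_.map_ne_zero _).2 RatFunc.X_ne_zero
    · have h1 : Qd (RatFunc.C RatFunc.X : RatFunc (RatFunc κ))
        (algebraMap (RatFunc κ)[X] (RatFunc (RatFunc κ)) G) j =
          algebraMap (RatFunc κ)[X] (RatFunc (RatFunc κ)) G := if_neg hj
      rw [h1]
      exact RatFunc.algebraMap_ne_zero hG0
  have hrep := rep_of_factors (F := RatFunc (RatFunc κ)) h2K (m := 2) d hd0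
    (p0.map (RatFunc.C : RatFunc κ →+* RatFunc (RatFunc κ))) (hmon.map _) (by
      intro p hp hpd
      rw [hd]
      rw [hp0] at hpd
      exact not_aniso_of_prim θ RatFunc.X G U' V' hid p hp hpd)
  have hval : ∀ c : RatFunc κ, p0.eval c ≠ 0 → Rep 2 d (RatFunc.C (p0.eval c)) := by
    intro c hc
    have h1 : (p0.map (RatFunc.C : RatFunc κ →+* RatFunc (RatFunc κ))).eval (RatFunc.C c) =
        RatFunc.C (p0.eval c) := by
      rw [eval_map, eval₂_at_apply]
    have h3 := rep_eval h2K d hd0 (p0.map (RatFunc.C : RatFunc κ →+* RatFunc (RatFunc κ)))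
      (RatFunc.C c) (by rw [h1]; exact (_root_.map_ne_zero _).2 hc) hrep
    rw [h1] at h3
    exact h3
  refine ⟨p0.eval c1 * p0.eval c2, hn, ?_⟩
  have hmul : Rep 2 d (RatFunc.C (p0.eval c1 * p0.eval c2)) := by
    rw [map_mul]
    exact (hval c1 hc1).mul (hval c2 hc2)
  rw [hd] at hmul
  refine rep_swap (fun h => hn ?_) hmul
  exact nrm_of_nrm_C h2k RatFunc.X_ne_zero (mul_ne_zero hc1 hc2) h

end MP4369f4
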