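import Pool.Agent.Lib_MP_4369f4_top.Diag

/-! H27 N2a: the degree reduction in Knebusch's norm principle. -/

namespace MP4369f4

open Polynomial

/-- the value of the form at a vector of polynomials -/
private noncomputable def KnebStepV {F : Type} [Field F] (m : ℕ) (d : ℕ → F) (w : PI m → F[X]) :
    F[X] :=
  ∑ i, C (pfc m d i) * w i ^ 2

/-- the form over F[X]/(p) in terms of polynomials -/
private theorem KnebStep_aniso_iff {F : Type} [Field F] {m : ℕ} (d : ℕ → F) (p : F[X])
    [hp : Fact (Irreducible p)] :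
    Aniso m (fun j => AdjoinRoot.of p (d j)) ↔
      ∀ w : PI m → F[X], p ∣ KnebStepV m d w → ∀ i, p ∣ w i := by
  have key : ∀ w : PI m → F[X],
      ∑ i, pfc m (fun j => AdjoinRoot.of p (d j)) i * (AdjoinRoot.mk p (w i)) ^ 2 =
        AdjoinRoot.mk p (KnebStepV m d w) := by
    intro w
    rw [KnebStepV, map_sum]
    refine Finset.sum_congr rfl fun i _ => ?_
    rw [map_mul, map_pow, ← pfc_map (AdjoinRoot.of p) m d i]
    rfl
  rw [aniso_iff_pfc]
  constructor
  · intro h w hw i
    have h1 := h (fun i => AdjoinRoot.mk p (w i)) (by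
      rw [key w]
      exact AdjoinRoot.mk_eq_zero.2 hw)
    exact AdjoinRoot.mk_eq_zero.1 (congrFun h1 i)
  · intro h v hv
    choose w hw using fun i => AdjoinRoot.mk_surjective (g := p) (v i)
    have hv' : v = fun i => AdjoinRoot.mk p (w i) := funext fun i => (hw i).symm
    rw [hv'] at hv ⊢
    rw [key w] at hv
    have h1 := h w (AdjoinRoot.mk_eq_zero.1 hv)
    funext i
    exact AdjoinRoot.mk_eq_zero.2 (h1 i)

/-- the coefficient of degree 2 D of the value -/
private theorem KnebStep_coeff {F : Type} [Field F] {m : ℕ} (d : ℕ → F) (w : PI m → F[X]) (D : ℕ)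
    (hD : ∀ i, (w i).natDegree ≤ D) :
    (KnebStepV m d w).natDegree ≤ 2 * D ∧
      (KnebStepV m d w).coeff (2 * D) = ∑ i, pfc m d i * ((w i).coeff D) ^ 2 := by
  constructor
  · rw [KnebStepV]
    refine natDegree_sum_le_of_forall_le _ _ fun i _ => ?_
    refine (natDegree_C_mul_le _ _).trans ?_
    exact (natDegree_pow_le).trans (Nat.mul_le_mul_left _ (hD i))
  · rw [KnebStepV, finsetSum_coeff]
    refine Finset.sum_congr rfl fun i _ => ?_
    rw [coeff_C_mul, coeff_pow_of_natDegree_le (hD i)]

/-- Let c_i = pfc m d i. Over L = AdjoinRoot P there is a vector not 0 with sum c_i v_i^2 = 0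
(`aniso_iff_pfc`, `pfc_map`); lift it to polynomials of degree < deg P (e.g. `AdjoinRoot.mk_surjective` and
`modByMonic`), not all 0. So the set of vectors w : PI m -> F[X], w not 0, all degrees < deg P,
P | sum C c_i w_i^2 is not empty; take w in it with minimal maximal degree (or divide by the gcd):
then the w_i have no common irreducible factor p: if p | all w_i, w = p w', then p^2 sum C c_i w'_i^2 is
divisible by P, P is irreducible and does not divide p (degrees), so w' is in the set and of smaller
degree. Let D = max deg w_i. The coefficient of X^(2 D) of V = sum C c_i w_i^2 is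
sum c_i (coeff_D w_i)^2, not 0 since the form is anisotropic over F. So V is not 0, natDegree V = 2 D <= 2 deg P - 2,
V = P P1, deg P1 = 2 D - deg P < deg P, leadingCoeff P1 = leadingCoeff V (P monic) = value of the form.
`Rep` over F(X): `rep_iff_pfc` with the vector w. If p | P1 is irreducible: modulo p the vector w is
not 0 and V is 0, so the form over AdjoinRoot p is isotropic (`aniso_iff_pfc`). -/
theorem kneb_step {F : Type} [Field F] {m : ℕ} (d : ℕ → F) (ha : Aniso m d) (P : F[X])
    (hP : P.Monic) (hirr : Fact (Irreducible P))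
    (h : ¬ Aniso m (fun j => AdjoinRoot.of P (d j))) :
    ∃ P1 : F[X], P1 ≠ 0 ∧ P1.natDegree < P.natDegree ∧ Rep m d P1.leadingCoeff ∧
      Rep m (fun j => (RatFunc.C (d j) : RatFunc F)) (algebraMap F[X] (RatFunc F) (P * P1)) ∧
      ∀ (p : F[X]) (_ : Fact (Irreducible p)), p ∣ P1 →
        ¬ Aniso m (fun j => AdjoinRoot.of p (d j)) := by
  classical
  have hPirr : Irreducible P := hirr.out
  have hPp : Prime P := hPirr.prime
  have hP1 : P ≠ 1 := hPirr.ne_one
  -- the set of vectors
  set S : Set (PI m → F[X]) := {w | (∃ i, w i ≠ 0) ∧ (∀ i, (w i).natDegree < P.natDegree) ∧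
    P ∣ KnebStepV m d w} with hS
  have hSne : S.Nonempty := by
    rw [KnebStep_aniso_iff] at h
    push Not at h
    obtain ⟨w, hw, i0, hi0⟩ := h
    refine ⟨fun i => w i %ₘ P, ⟨i0, ?_⟩, fun i => natDegree_modByMonic_lt _ hP hP1, ?_⟩
    · intro h0
      exact hi0 ((modByMonic_eq_zero_iff_dvd hP).1 h0)
    · have h1 : P ∣ KnebStepV m d w - KnebStepV m d (fun i => w i %ₘ P) := by
        rw [KnebStepV, KnebStepV, ← Finset.sum_sub_distrib]
        refine Finset.dvd_sum fun i _ => ?_
        have h2 : w i = w i %ₘ P + P * (w i /ₘ P) := (modByMonic_add_div (w i) P).symm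
        refine ⟨C (pfc m d i) * ((w i /ₘ P) * (w i + w i %ₘ P)), ?_⟩
        have h3 : w i - w i %ₘ P = P * (w i /ₘ P) := by
          linear_combination h2
        calc C (pfc m d i) * w i ^ 2 - C (pfc m d i) * (w i %ₘ P) ^ 2
            = C (pfc m d i) * ((w i - w i %ₘ P) * (w i + w i %ₘ P)) := by ring
          _ = P * (C (pfc m d i) * ((w i /ₘ P) * (w i + w i %ₘ P))) := by rw [h3]; ring
      exact (dvd_sub_right hw).1 h1
  -- minimal element
  obtain ⟨w, hwS, hmin⟩ := (measure fun w : PI m → F[X] =>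
    Finset.univ.sup fun i => (w i).natDegree).wf.has_min S hSne
  obtain ⟨⟨i0, hi0⟩, hdeg, hdvd⟩ := hwS
  set D := Finset.univ.sup fun i => (w i).natDegree with hDdef
  have hle : ∀ i, (w i).natDegree ≤ D := fun i =>
    Finset.le_sup (f := fun i => (w i).natDegree) (Finset.mem_univ i)
  have hDlt : D < P.natDegree := by
    rw [hDdef, Finset.sup_lt_iff (by
      have := hdeg i0
      exact lt_of_le_of_lt (Nat.zero_le _) this)]
    exact fun i _ => hdeg i
  -- no common factor
  have hcop : ∀ p : F[X], Irreducible p → ¬ ∀ i, p ∣ w i := by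
    intro p hp hall
    choose w' hw' using hall
    have hp0 : p ≠ 0 := hp.ne_zero
    have hpd : 0 < p.natDegree := hp.natDegree_pos
    have hi0' : w' i0 ≠ 0 := by
      intro h0
      apply hi0
      rw [hw' i0, h0, mul_zero]
    have hdeg' : ∀ i, (w' i).natDegree + (if w' i = 0 then 0 else p.natDegree) =
        (w i).natDegree := by
      intro i
      split_ifs with h0
      · rw [hw' i, h0, mul_zero]
        simp
      · rw [hw' i, natDegree_mul hp0 h0, add_comm]
    have hle' : ∀ i, (w' i).natDegree ≤ (w i).natDegree := fun i => by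
      have := hdeg' i
      omega
    have hpw : p.natDegree ≤ (w i0).natDegree := by
      have := hdeg' i0
      rw [if_neg hi0'] at this
      omega
    have hnd : ¬ P ∣ p := by
      intro hd
      have h1 := natDegree_le_of_dvd hd hp0
      have h2 := hdeg i0
      omega
    have hV : KnebStepV m d w = p ^ 2 * KnebStepV m d w' := by
      rw [KnebStepV, KnebStepV, Finset.mul_sum]
      refine Finset.sum_congr rfl fun i _ => ?_
      rw [hw' i]
      ring
    have hdvd' : P ∣ KnebStepV m d w' := by
      rw [hV] at hdvd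
      rcases hPp.dvd_or_dvd hdvd with h1 | h1
      · exact absurd (hPp.dvd_of_dvd_pow h1) hnd
      · exact h1
    have hmem : w' ∈ S := ⟨⟨i0, hi0'⟩, fun i => lt_of_le_of_lt (hle' i) (hdeg i), hdvd'⟩
    apply hmin w' hmem
    show (Finset.univ.sup fun i => (w' i).natDegree) < D
    have hD0 : 0 < D := lt_of_lt_of_le hpd (hpw.trans (hle i0))
    rw [Finset.sup_lt_iff (by exact hD0)]
    intro i _
    have h1 := hdeg' i
    have h2 := hle i
    by_cases h0 : w' i = 0
    · rw [h0, natDegree_zero]
      exact hD0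
    · rw [if_neg h0] at h1
      omega
  -- leading coefficient
  obtain ⟨hVle, hVc⟩ := KnebStep_coeff d w D hle
  have hc0 : ∃ i, (w i).coeff D ≠ 0 := by
    rcases Nat.eq_zero_or_pos D with h0 | h0
    · refine ⟨i0, fun h1 => hi0 ?_⟩
      have h2 : (w i0).natDegree ≤ 0 := by rw [← h0]; exact hle i0
      rw [eq_C_of_natDegree_le_zero h2, ← h0, h1, C_0]
    · obtain ⟨i, _, hi⟩ := Finset.exists_mem_eq_sup (Finset.univ : Finset (PI m)) ⟨i0, Finset.mem_univ _⟩
        (fun i => (w i).natDegree)
      refine ⟨i, ?_⟩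
      rw [hDdef, hi]
      intro h1
      have h2 : w i = 0 := leadingCoeff_eq_zero.1 h1
      have h3 : D = (w i).natDegree := hi
      rw [h2, natDegree_zero] at h3
      omega
  have hVne : (KnebStepV m d w).coeff (2 * D) ≠ 0 := by
    rw [hVc]
    intro h0
    obtain ⟨i, hi⟩ := hc0
    exact hi (congrFun ((aniso_iff_pfc m d).1 ha (fun i => (w i).coeff D) h0) i)
  have hVdeg : (KnebStepV m d w).natDegree = 2 * D :=
    le_antisymm hVle (le_natDegree_of_ne_zero hVne)
  have hV0 : KnebStepV m d w ≠ 0 := by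
    intro h0
    rw [h0] at hVne
    simp at hVne
  obtain ⟨P1, hP1e⟩ := hdvd
  have hP10 : P1 ≠ 0 := by
    intro h0
    rw [hP1e, h0, mul_zero] at hV0
    exact hV0 rfl
  refine ⟨P1, hP10, ?_, ?_, ?_, ?_⟩
  · have h1 : P.natDegree + P1.natDegree = 2 * D := by
      rw [← hVdeg, hP1e, natDegree_mul hPirr.ne_zero hP10]
    omega
  · rw [rep_iff_pfc]
    refine ⟨fun i => (w i).coeff D, ?_⟩
    rw [← hVc, ← hVdeg]
    show _ = (KnebStepV m d w).leadingCoeff
    rw [hP1e, leadingCoeff_mul, hP.leadingCoeff, one_mul]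
  · rw [rep_iff_pfc]
    refine ⟨fun i => algebraMap F[X] (RatFunc F) (w i), ?_⟩
    rw [← hP1e, KnebStepV, map_sum]
    refine Finset.sum_congr rfl fun i _ => ?_
    rw [map_mul, map_pow, RatFunc.algebraMap_C, ← pfc_map (RatFunc.C : F →+* RatFunc F) m d i]
  · intro p hp hdp
    rw [KnebStep_aniso_iff]
    intro hall
    exact hcop p hp.out (hall w (hP1e ▸ Dvd.dvd.mul_left hdp P))

end MP4369f4
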