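import Pool.Agent.Lib_MP_4369f4_top.JSem
import Pool.Agent.Lib_MP_4369f4_top.FoTop

/-! H27 Z2: assembly. -/

namespace MP4369f4

open Polynomial FirstOrder

/-- Let k = RatFunc κ, with constants c1 = RatFunc.C ∘ c0 and t1 i = (RatFunc.C (t0 i) for i < m + 1, X otherwise), level
m + 2. `polD_iff (m + 1)` with F = K = k, φ = RingHom.id k (Tw.base): PolD (m + 1) tK r iff r = C (pev (m + 2) c1 t1 p).
`Top.cst_iff`, `Top.j3_iff`, `Lv.pol_iff` for k and t' = tK. -/
theorem Top.polTop_iff {m : ℕ} {κ : Type} [Field κ] {c0 : ℂ →+* κ} {t0 : ℕ → κ}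
    {tK : ℕ → RatFunc (RatFunc κ)} (A : Top m κ c0 t0 tK) (f : RatFunc (RatFunc κ)) :
    PolTop m tK f ↔ ∃ p : MvPolynomial (Fin (m + 3)) ℂ,
      f = pev (m + 3) ((RatFunc.C : RatFunc κ →+* RatFunc (RatFunc κ)).comp
        ((RatFunc.C : κ →+* RatFunc κ).comp c0)) tK p := by
  let t1 : ℕ → RatFunc κ := fun i => if i < m + 1 then RatFunc.C (t0 i) else RatFunc.X
  have hL : Lv (m + 2) (RatFunc κ) ((RatFunc.C : κ →+* RatFunc κ).comp c0) t1 :=
    Lv.succ (m + 1) κ c0 t0 t1 A.lv (fun i hi => if_pos hi) (if_neg (lt_irrefl _))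
  have htK : ∀ i < m + 2, tK i = RatFunc.C (t1 i) := by
    intro i hi
    rcases Nat.lt_succ_iff_lt_or_eq.1 hi with h1 | h1
    · have h2 : t1 i = RatFunc.C (t0 i) := if_pos h1
      rw [A.ht i h1, h2]
    · have h2 : t1 i = RatFunc.X := if_neg (by omega)
      rw [h2, h1, A.hs]
  have hpol : ∀ r : RatFunc (RatFunc κ), PolD (m + 1) tK r ↔
      ∃ p : MvPolynomial (Fin (m + 2)) ℂ,
        r = RatFunc.C (pev (m + 2) ((RatFunc.C : κ →+* RatFunc κ).comp c0) t1 p) := by
    intro r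
    exact polD_iff (m + 1) hL Tw.base (tK := tK) (fun i hi => htK i hi) r
  have h3 := hL.pol_iff (t' := tK) htK A.hX f
  refine Iff.trans ?_ h3
  constructor
  · intro h z
    obtain ⟨r, u, hr, hu, he⟩ := h _ ((A.cst_iff _).2 ⟨z, rfl⟩)
    rw [A.hX] at hu he
    obtain ⟨p, rfl⟩ := (hpol r).1 hr
    obtain ⟨P, Q, hQ, rfl⟩ := (A.j3_iff z u).1 hu
    exact ⟨p, P, Q, hQ, he⟩
  · intro h c hc
    obtain ⟨z, rfl⟩ := (A.cst_iff c).1 hc
    obtain ⟨r, P, Q, hQ, he⟩ := h z
    refine ⟨_, algebraMap (RatFunc κ)[X] (RatFunc (RatFunc κ)) P /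
      algebraMap (RatFunc κ)[X] (RatFunc (RatFunc κ)) Q, (hpol _).2 ⟨r, rfl⟩, ?_, ?_⟩
    · rw [A.hX]
      exact (A.j3_iff z _).2 ⟨P, Q, hQ, rfl⟩
    · rw [A.hX]
      exact he

/-- a field of level m + 3 -/
private theorem MainTop_lv {M : ℕ} {F : Type} [Field F] {c : ℂ →+* F} {t : ℕ → F}
    (h : Lv M F c t) : ∀ m : ℕ, M = m + 3 →
    ∃ (κ : Type) (_ : Field κ) (c0 : ℂ →+* κ) (t0 : ℕ → κ) (tK : ℕ → RatFunc (RatFunc κ))
      (_ : Top m κ c0 t0 tK) (e : F ≃+* RatFunc (RatFunc κ)),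
      (∀ i < m + 3, e (t i) = tK i) ∧
        ∀ z : ℂ, e (c z) = RatFunc.C (RatFunc.C (c0 z)) := by
  intro m hm
  subst hm
  cases h with
  | succ _ F1 c1 t1 t h1 ht1 hX1 =>
    cases h1 with
    | succ _ F0 c0 t0 t1 h0 ht0 hX0 =>
      refine ⟨F0, inferInstance, c0, t0, t, ⟨h0, ?_, ?_, hX1⟩, RingEquiv.refl _, fun i _ => rfl,
        fun z => rfl⟩
      · intro i hi
        rw [ht1 i (by omega), ht0 i hi]
      · rw [ht1 (m + 1) (by omega), hX0]

/-- the sequence of terms -/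
private def MainTop_t (n : ℕ) (i : ℕ) (K : Type) [Field K] (v : Fin (n + 1) → K) : K :=
  if h : i < n then v ⟨i + 1, by omega⟩ else v 0

private theorem MainTop_tm (n : ℕ) (i : ℕ) : TmA (Fin (n + 1)) (MainTop_t n i) := by
  by_cases h : i < n
  · have h1 : MainTop_t n i = fun (K : Type) [Field K] (v : Fin (n + 1) → K) =>
        v ⟨i + 1, by omega⟩ := by
      funext K _ v
      unfold MainTop_t
      rw [dif_pos h]
    rw [h1]
    exact TmA.var _
  · have h1 : MainTop_t n i = fun (K : Type) [Field K] (v : Fin (n + 1) → K) => v 0 := by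
      funext K _ v
      unfold MainTop_t
      rw [dif_neg h]
    rw [h1]
    exact TmA.var _

private theorem MainTop_pev {F : Type*} [Field F] {n : ℕ} (c : ℂ →+* F) {t t' : ℕ → F}
    (h : ∀ i < n, t i = t' i) (p : MvPolynomial (Fin n) ℂ) : pev n c t p = pev n c t' p := by
  unfold pev
  congr 1
  funext i
  exact h i i.isLt

/-- For all n >= 3 the polynomial ring in all variables is definable in ℂ(t_1,...,t_n), the parameters
are the variables. n = m + 3; `exists_lv (m + 3)`: unfold `Lv` three times (cases) to get κ; `FoA.polTop` with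
t i = v (i + 1), x = v 0; `FoA.equiv_iff`; `Top.polTop_iff`; compare `main_m` in Main.lean of H22. -/
theorem main_top (n : ℕ) (hn : 3 ≤ n) : ∃ Φ : Language.ring.Formula (Fin (n + 1)),
    ∀ x : FractionRing (MvPolynomial (Fin n) ℂ),
    letI := Ring.compatibleRingOfRing (FractionRing (MvPolynomial (Fin n) ℂ))
    (Φ.Realize (Fin.cons (α := fun _ => FractionRing (MvPolynomial (Fin n) ℂ)) x
        (fun j => algebraMap (MvPolynomial (Fin n) ℂ) (FractionRing (MvPolynomial (Fin n) ℂ))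
          (MvPolynomial.X j))) ↔
      ∃ p : MvPolynomial (Fin n) ℂ, x = algebraMap (MvPolynomial (Fin n) ℂ)
        (FractionRing (MvPolynomial (Fin n) ℂ)) p) := by
  obtain ⟨m, rfl⟩ : ∃ m, n = m + 3 := ⟨n - 3, by omega⟩
  have hFo := FoA.polTop (α := Fin (m + 3 + 1)) m (t := MainTop_t (m + 3)) (x := fun K _ v => v 0)
    (fun i => MainTop_tm (m + 3) i) (TmA.var 0)
  obtain ⟨Φ, hΦ⟩ := id hFo
  refine ⟨Φ, ?_⟩
  intro x
  letI := Ring.compatibleRingOfRing (FractionRing (MvPolynomial (Fin (m + 3)) ℂ))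
  obtain ⟨F, _, c, t, hL, e0, he1, he2⟩ := exists_lv (m + 3)
  obtain ⟨κ, _, c0, t0, tK, A, e1, he3, he4⟩ := MainTop_lv hL m rfl
  set e : KF (Fin (m + 3)) ≃+* RatFunc (RatFunc κ) := e0.trans e1 with hedef
  have h1 := hΦ (FractionRing (MvPolynomial (Fin (m + 3)) ℂ))
    (Fin.cons (α := fun _ => FractionRing (MvPolynomial (Fin (m + 3)) ℂ)) x
        (fun j => algebraMap (MvPolynomial (Fin (m + 3)) ℂ)
          (FractionRing (MvPolynomial (Fin (m + 3)) ℂ)) (MvPolynomial.X j)))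
  have h2 := FoA.equiv_iff hFo e
    (Fin.cons (α := fun _ => FractionRing (MvPolynomial (Fin (m + 3)) ℂ)) x
        (fun j => algebraMap (MvPolynomial (Fin (m + 3)) ℂ)
          (FractionRing (MvPolynomial (Fin (m + 3)) ℂ)) (MvPolynomial.X j)))
  refine h1.trans (h2.trans ?_)
  set τ : ℕ → RatFunc (RatFunc κ) := fun i => MainTop_t (m + 3) i (RatFunc (RatFunc κ))
    (fun a => e ((Fin.cons (α := fun _ => FractionRing (MvPolynomial (Fin (m + 3)) ℂ)) x
        (fun j => algebraMap (MvPolynomial (Fin (m + 3)) ℂ)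
          (FractionRing (MvPolynomial (Fin (m + 3)) ℂ)) (MvPolynomial.X j)) :
        Fin (m + 3 + 1) → FractionRing (MvPolynomial (Fin (m + 3)) ℂ)) a)) with hτ
  have hτi : ∀ i < m + 3, τ i = tK i := by
    intro i hi
    have h4 := he1 ⟨i, hi⟩
    have h5 := he3 i hi
    have h6 : τ i = e (xv (⟨i, hi⟩ : Fin (m + 3))) := by
      rw [hτ]
      unfold MainTop_t
      simp only
      rw [dif_pos hi]
      rfl
    rw [h6, hedef, RingEquiv.trans_apply, h4, h5]
  have A' : Top m κ c0 t0 τ := by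
    refine ⟨A.lv, ?_, ?_, ?_⟩
    · intro i hi
      rw [hτi i (by omega), A.ht i hi]
    · rw [hτi (m + 1) (by omega), A.hs]
    · rw [hτi (m + 2) (by omega), A.hX]
  refine (A'.polTop_iff (e x)).trans ?_
  have h4 : ∀ p : MvPolynomial (Fin (m + 3)) ℂ,
      e (algebraMap (MvPolynomial (Fin (m + 3)) ℂ)
        (FractionRing (MvPolynomial (Fin (m + 3)) ℂ)) p) =
      pev (m + 3) ((RatFunc.C : RatFunc κ →+* RatFunc (RatFunc κ)).comp
        ((RatFunc.C : κ →+* RatFunc κ).comp c0)) τ p := by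
    intro p
    have h5 : (e : KF (Fin (m + 3)) →+* RatFunc (RatFunc κ)).comp
        (algebraMap (MvPolynomial (Fin (m + 3)) ℂ) (KF (Fin (m + 3)))) =
          (MvPolynomial.eval₂Hom ((RatFunc.C : RatFunc κ →+* RatFunc (RatFunc κ)).comp
            ((RatFunc.C : κ →+* RatFunc κ).comp c0)) (fun i : Fin (m + 3) => τ i)) := by
      apply MvPolynomial.ringHom_ext
      · intro z
        have h6 : e (cc _ z) = RatFunc.C (RatFunc.C (c0 z)) := by
          rw [hedef, RingEquiv.trans_apply, he2, he4]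
        unfold cc at h6
        simpa using h6
      · intro i
        have h6 : e (xv i) = τ i := by
          rw [hτi i i.isLt, hedef, RingEquiv.trans_apply, he1, he3 i i.isLt]
        unfold xv at h6
        simpa using h6
    exact congrArg (fun f => f p) h5
  apply exists_congr
  intro p
  rw [← h4 p, e.injective.eq_iff]

end MP4369f4
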