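import Pool.Agent.Lib_MP_4369f4_top.Defs

/-! H27 A2: leading coefficients of norms p^2 - s q^2 in κ((s)). -/

namespace MP4369f4

open Polynomial

private theorem NotNrm_tau_ne_zero (L : Type) [Field L] : tau L ≠ 0 := by
  intro h
  have h1 : (PowerSeries.X : PowerSeries L) = 0 := by
    apply HahnSeries.ofPowerSeries_injective (Γ := ℤ) (R := L)
    rw [map_zero]
    exact h
  exact PowerSeries.X_ne_zero h1

private theorem NotNrm_sq {L : Type} [Field L] {u : LaurentSeries L} (hu : u ≠ 0) :
    ∃ (n : ℤ) (g : PowerSeries L), PowerSeries.constantCoeff g ≠ 0 ∧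
      IsSquare (PowerSeries.constantCoeff g) ∧
      u ^ 2 = tau L ^ (2 * n) * HahnSeries.ofPowerSeries ℤ L g := by
  obtain ⟨n, g, hg, ⟨c, hc⟩, h⟩ := rep_laurent (m := 0) (d := fun _ => (0 : L)) trivial
    (f := u ^ 2) ⟨u, rfl⟩ (pow_ne_zero 2 hu)
  exact ⟨n, g, hg, ⟨c, by rw [hc]; ring⟩, h⟩

/-- Suppose p^2 - s q^2 = h. Apply emb (`emb_X`): P^2 - tau Q^2. P^2 is 0 or tau^(2 a) g1 with g1(0) a nonzero
square (`rep_laurent` with m = 0, or `lead_form`), tau Q^2 is 0 or tau^(2 b + 1) g2. If the order of P^2 is smaller (or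
Q = 0) the leading coefficient of the difference is g1(0), a square, and by `tau_zpow_eq` constantCoeff g = g1(0),
contradiction; otherwise the order of the difference is 2 b + 1, odd, contradiction. -/
theorem not_nrm_of_lead {κ : Type} [Field κ] {h : RatFunc κ} {n : ℤ} {g : PowerSeries κ}
    (hg : ¬ IsSquare (PowerSeries.constantCoeff g))
    (hh : emb κ h = tau κ ^ (2 * n) * HahnSeries.ofPowerSeries ℤ κ g) :
    ¬ Nrm RatFunc.X h := by
  rintro ⟨p, q, hpq⟩
  have ht := NotNrm_tau_ne_zero κ
  have hg0 : PowerSeries.constantCoeff g ≠ 0 := by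
    intro h0
    apply hg
    rw [h0]
    exact ⟨0, by ring⟩
  have hgne : (HahnSeries.ofPowerSeries ℤ κ g : LaurentSeries κ) ≠ 0 := by
    intro h0
    have h1 : g = 0 := by
      apply HahnSeries.ofPowerSeries_injective (Γ := ℤ) (R := κ)
      rw [map_zero]
      exact h0
    apply hg0
    rw [h1, map_zero]
  set P := emb κ p with hP
  set Q := emb κ q with hQ
  have key : P ^ 2 - tau κ * Q ^ 2 = tau κ ^ (2 * n) * HahnSeries.ofPowerSeries ℤ κ g := by
    rw [← hh, ← hpq, map_sub, map_mul, map_pow, map_pow, emb_X]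
  have hX : (HahnSeries.ofPowerSeries ℤ κ (PowerSeries.X : PowerSeries κ)) = tau κ := rfl
  by_cases hQ0 : Q = 0
  · rw [hQ0] at key
    by_cases hP0 : P = 0
    · rw [hP0] at key
      have h1 : tau κ ^ (2 * n) * HahnSeries.ofPowerSeries ℤ κ g = 0 := by
        rw [← key]
        ring
      exact (mul_ne_zero (zpow_ne_zero _ ht) hgne) h1
    · obtain ⟨a, g1, hg1, hs1, h1⟩ := NotNrm_sq hP0
      have h2 : tau κ ^ (2 * n) * HahnSeries.ofPowerSeries ℤ κ g =
          tau κ ^ (2 * a) * HahnSeries.ofPowerSeries ℤ κ g1 := by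
        rw [← key, ← h1]
        ring
      rw [(tau_zpow_eq hg0 hg1 h2).2] at hg
      exact hg hs1
  · obtain ⟨b, g2, hg2, -, h2⟩ := NotNrm_sq hQ0
    by_cases hP0 : P = 0
    · rw [hP0, h2] at key
      have h3 : tau κ ^ (2 * n) * HahnSeries.ofPowerSeries ℤ κ g =
          tau κ ^ (2 * b + 1) * HahnSeries.ofPowerSeries ℤ κ (-g2) := by
        rw [← key, zpow_add_one₀ ht, map_neg]
        ring
      have h4 := (tau_zpow_eq hg0 (by rw [map_neg]; exact neg_ne_zero.2 hg2) h3).1
      omega
    · obtain ⟨a, g1, hg1, hs1, h1⟩ := NotNrm_sq hP0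
      rw [h1, h2] at key
      rcases le_or_gt a b with hab | hab
      · obtain ⟨k, rfl⟩ := Int.le.dest hab
        have hc : PowerSeries.constantCoeff (g1 - PowerSeries.X ^ (2 * k + 1) * g2) =
            PowerSeries.constantCoeff g1 := by
          rw [map_sub, map_mul, map_pow, PowerSeries.constantCoeff_X, zero_pow (by omega)]
          ring
        have h3 : tau κ ^ (2 * n) * HahnSeries.ofPowerSeries ℤ κ g =
            tau κ ^ (2 * a) *
              HahnSeries.ofPowerSeries ℤ κ (g1 - PowerSeries.X ^ (2 * k + 1) * g2) := by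
          have h4 : tau κ ^ (2 * (a + (k : ℤ))) = tau κ ^ (2 * a) * tau κ ^ (2 * k) := by
            rw [mul_add, zpow_add₀ ht,
              show (2 * (k : ℤ)) = ((2 * k : ℕ) : ℤ) by rw [Nat.cast_mul, Nat.cast_ofNat],
              zpow_natCast]
          rw [← key, h4, map_sub, map_mul, map_pow, hX, pow_succ]
          ring
        have h5 := (tau_zpow_eq hg0 (by rw [hc]; exact hg1) h3).2
        rw [h5, hc] at hg
        exact hg hs1
      · obtain ⟨k, hk⟩ := Int.le.dest (show b + 1 ≤ a from hab)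
        have ha : a = b + 1 + (k : ℤ) := hk.symm
        have hc : PowerSeries.constantCoeff (PowerSeries.X ^ (2 * k + 1) * g1 - g2) =
            - PowerSeries.constantCoeff g2 := by
          rw [map_sub, map_mul, map_pow, PowerSeries.constantCoeff_X, zero_pow (by omega)]
          ring
        have h3 : tau κ ^ (2 * n) * HahnSeries.ofPowerSeries ℤ κ g =
            tau κ ^ (2 * b + 1) *
              HahnSeries.ofPowerSeries ℤ κ (PowerSeries.X ^ (2 * k + 1) * g1 - g2) := by
          have h4 : tau κ ^ (2 * a) = tau κ ^ (2 * b + 1) * tau κ ^ (2 * k + 1) := by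
            rw [show 2 * a = (2 * b + 1) + ((2 * k + 1 : ℕ) : ℤ) by rw [ha]; push_cast; ring,
              zpow_add₀ ht, zpow_natCast]
          have h5 : tau κ ^ (2 * b + 1) = tau κ ^ (2 * b) * tau κ := zpow_add_one₀ ht _
          rw [← key, h4, map_sub, map_mul, map_pow, hX, h5]
          ring
        have h5 := (tau_zpow_eq hg0 (by rw [hc]; exact neg_ne_zero.2 hg2) h3).1
        omega

end MP4369f4
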