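import Pool.Agent.Lib_MP_4369f4_top.Hens

/-! H27 R1: the roots of Gam near a root b of T. -/

namespace MP4369f4

open Polynomial

/-- T = (X - C b) T1 with T1(b) = T'(b) =: e. Over R = PowerSeries κ put Y = C b + S X in R[X] (S = the power
series variable, X the polynomial variable), then T(Y) = S X T1(Y) and
Gam(Y) = S^4 G, G = X^4 T1(Y)^4 + (C (b - a) + S X) (S^2 P(Y) T(Y) - 1)^2. Modulo S: G = e^4 X^4 + (b - a). Its root ν
(not 0) is simple: the derivative is 4 e^4 ν^3. `hensel_ps`. -/
theorem exists_root {κ : Type} [Field κ] [CharZero κ] {a b ν : κ} (hab : b ≠ a) {T : κ[X]}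
    (hT : T.eval b = 0) (hν : ν ^ 4 * ((derivative T).eval b) ^ 4 = -(b - a))
    (P : (PowerSeries κ)[X]) :
    ∃ η : PowerSeries κ, PowerSeries.constantCoeff η = ν ∧
      (Gam (PowerSeries.X ^ 2) (PowerSeries.C a) (T.map PowerSeries.C) P).eval
        (PowerSeries.C b + PowerSeries.X * η) = 0 := by
  -- T = (X - b) T1
  obtain ⟨T1, hT1⟩ := dvd_iff_isRoot.2 (show T.IsRoot b from hT)
  have he : (derivative T).eval b = T1.eval b := by
    rw [hT1, derivative_mul]
    simp
  rw [he] at hν
  have hba : b - a ≠ 0 := sub_ne_zero.2 hab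
  have hνe : ν ^ 4 * (T1.eval b) ^ 4 ≠ 0 := by
    rw [hν]
    exact neg_ne_zero.2 hba
  have hν0 : ν ≠ 0 := by
    rintro rfl
    apply hνe
    simp
  have he0 : T1.eval b ≠ 0 := by
    intro h0
    apply hνe
    rw [h0]
    simp
  set S : PowerSeries κ := PowerSeries.X with hS
  set cc : PowerSeries κ →+* κ := PowerSeries.constantCoeff with hcc
  set Y : (PowerSeries κ)[X] := C (PowerSeries.C b) + C S * X with hY
  set T2 : (PowerSeries κ)[X] := T1.map PowerSeries.C with hT2
  set G : (PowerSeries κ)[X] := X ^ 4 * (T2.comp Y) ^ 4 + (C (PowerSeries.C (b - a)) + C S * X) *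
    (C (S ^ 2) * P.comp Y * (C S * X * T2.comp Y) - 1) ^ 2 with hG
  have hccS : cc S = 0 := by
    rw [hcc, hS]
    exact PowerSeries.constantCoeff_X
  have hccC : ∀ c : κ, cc (PowerSeries.C c) = c := fun c => PowerSeries.constantCoeff_C c
  have hYm : Y.map cc = C b := by
    rw [hY, Polynomial.map_add, Polynomial.map_mul, map_C, map_C, hccS, hccC]
    simp
  have hT2m : T2.map cc = T1 := by
    rw [hT2, Polynomial.map_map]
    have h1 : cc.comp (PowerSeries.C : κ →+* PowerSeries κ) = RingHom.id κ := by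
      ext c
      exact hccC c
    rw [h1, Polynomial.map_id]
  have hcomp : (T2.comp Y).map cc = C (T1.eval b) := by
    rw [Polynomial.map_comp, hT2m, hYm, comp_C]
  have hGm : G.map cc = X ^ 4 * C (T1.eval b) ^ 4 + C (b - a) := by
    rw [hG]
    simp only [Polynomial.map_add, Polynomial.map_sub, Polynomial.map_mul, Polynomial.map_pow,
      map_X, map_C, hcomp, hccS, hccC, map_pow, Polynomial.map_one]
    simp
  obtain ⟨η, hη, hGη⟩ := hensel_ps G ν (by
    show (G.map cc).eval ν = 0
    rw [hGm]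
    simp only [eval_add, eval_mul, eval_pow, eval_X, eval_C]
    rw [hν]
    ring) (by
    show (derivative (G.map cc)).eval ν ≠ 0
    rw [hGm]
    have h4 : (derivative (X ^ 4 * C (T1.eval b) ^ 4 + C (b - a))).eval ν =
        4 * ν ^ 3 * (T1.eval b) ^ 4 := by
      rw [← C_pow, derivative_add, derivative_C, add_zero, derivative_mul, derivative_C, mul_zero,
        add_zero, derivative_X_pow, eval_mul, eval_mul, eval_pow, eval_X, eval_C, eval_C]
      norm_num
    rw [h4]
    exact mul_ne_zero (mul_ne_zero (by norm_num) (pow_ne_zero _ hν0)) (pow_ne_zero _ he0))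
  refine ⟨η, hη, ?_⟩
  have hYe : Y.eval η = PowerSeries.C b + S * η := by
    rw [hY]
    simp
  have hTe : (T.map PowerSeries.C).eval (PowerSeries.C b + S * η) =
      S * η * T2.eval (PowerSeries.C b + S * η) := by
    rw [hT1, Polynomial.map_mul, eval_mul, hT2]
    simp
  have hGe : G.eval η = η ^ 4 * (T2.eval (PowerSeries.C b + S * η)) ^ 4 +
      (PowerSeries.C (b - a) + S * η) *
        (S ^ 2 * P.eval (PowerSeries.C b + S * η) *
          (S * η * T2.eval (PowerSeries.C b + S * η)) - 1) ^ 2 := by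
    rw [hG]
    simp only [eval_add, eval_sub, eval_mul, eval_pow, eval_X, eval_C, eval_comp, hYe, eval_one]
  have hfin : (Gam (S ^ 2) (PowerSeries.C a) (T.map PowerSeries.C) P).eval
      (PowerSeries.C b + S * η) = S ^ 4 * G.eval η := by
    rw [Gam, hGe]
    simp only [eval_add, eval_sub, eval_mul, eval_pow, eval_X, eval_C, hTe, eval_one]
    rw [map_sub]
    ring
  rw [hfin, hGη, mul_zero]

end MP4369f4
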